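import Pool.Agent.Helper13.NS.Stair

/-!
# The exceptional shape does not occur
-/

set_option autoImplicit false

namespace Pool.Agent.Helper13.NS

theorem kill_aux {G : Type} [AddCommGroup G] (A : St G) (k : ℕ) (hk : 2 ≤ k)
    (hS : ∀ x y z, A.S x y z ↔ (x < A.C1 ∧ y < A.C2 ∧ z < A.C3) ∧
      (x = 0 ∨ y = 0 ∨ x + y ≤ k) ∧ (x = 0 ∨ z = 0 ∨ x + z ≤ k) ∧
      (y = 0 ∨ z = 0 ∨ y + z ≤ 2))
    (h1 : k < A.C1) (h2 : k < A.C2) (h3 : k < A.C3)
    (hC : A.C1 + A.C2 + A.C3 = 3 * k + 4) (ρ1 ρ2 : ℕ) (l1 : ρ1 < A.C1) (l2 : ρ2 < A.C1)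
    (g1 : A.e2 + 2 • A.e3 = ρ1 • A.e1) (g2 : 2 • A.e2 + A.e3 = ρ2 • A.e1)
    (hlt : ρ1 < ρ2) : False := by
  have mem : ∀ x y z, (x < A.C1 ∧ y < A.C2 ∧ z < A.C3) ∧
      (x = 0 ∨ y = 0 ∨ x + y ≤ k) ∧ (x = 0 ∨ z = 0 ∨ x + z ≤ k) ∧
      (y = 0 ∨ z = 0 ∨ y + z ≤ 2) → A.S x y z := fun x y z h => (hS x y z).2 h
  obtain ⟨δ, rfl⟩ : ∃ δ, ρ2 = ρ1 + δ := ⟨ρ2 - ρ1, by omega⟩
  -- e2 = e3 + δ e1
  have g3 : A.e2 = A.e3 + δ • A.e1 := by
    linear_combination (norm := module) g2 - g1
  have d1 : k ≤ δ := by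
    by_contra hlt'
    have := A.inj (mem δ 0 1 (by omega)) (mem 0 1 0 (by omega))
      (by linear_combination (norm := module) -g3)
    omega
  -- the corner (k, 0, 1)
  obtain ⟨μ, lμ, g4⟩ : ∃ μ, μ < A.C2 ∧ k • A.e1 + A.e3 = μ • A.e2 := by
    obtain ⟨a, b, c, hs, e⟩ := A.surj (k • A.e1 + 0 • A.e2 + 1 • A.e3)
    have hn : ¬ A.S k 0 1 := by
      intro h
      have := (hS _ _ _).1 h
      omega
    have ha := A.rep_x hn (by omega) (mem _ _ _ (by omega)) hs e
    have hc := A.rep_z hn (by omega) (mem _ _ _ (by omega)) hs e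
    subst ha hc
    exact ⟨b, A.ltC2 hs, by linear_combination (norm := module) e⟩
  rcases Nat.lt_or_ge k δ with hδ | hδ
  · -- δ ≥ k + 1
    have hδ' : δ = k + 1 := by omega
    subst hδ'
    have g5 : A.e2 = A.e1 + μ • A.e2 := by
      linear_combination (norm := module) g3 + g4
    rcases Nat.eq_zero_or_pos μ with rfl | hμ
    · have := A.inj (mem 0 1 0 (by omega)) (mem 1 0 0 (by omega))
        (by linear_combination (norm := module) g5)
      omega
    · obtain ⟨m, rfl⟩ : ∃ m, μ = m + 1 := ⟨μ - 1, by omega⟩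
      by_cases hm : A.S 1 m 0
      · have := A.inj hm A.zero_mem (by linear_combination (norm := module) -g5)
        omega
      · exact hm (mem _ _ _ (by omega))
  · have hδ' : δ = k := by omega
    subst hδ'
    -- the corner (k, 1, 0)
    obtain ⟨κ, lκ, g6⟩ : ∃ κ, κ < A.C3 ∧ δ • A.e1 + A.e2 = κ • A.e3 := by
      obtain ⟨a, b, c, hs, e⟩ := A.surj (δ • A.e1 + 1 • A.e2 + 0 • A.e3)
      have hn : ¬ A.S δ 1 0 := by
        intro h
        have := (hS _ _ _).1 h
        omega
      have ha := A.rep_x hn (by omega) (mem _ _ _ (by omega)) hs e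
      have hb := A.rep_y hn (by omega) (mem _ _ _ (by omega)) hs e
      subst ha hb
      exact ⟨c, A.ltC3 hs, by linear_combination (norm := module) e⟩
    have g7 : 2 • A.e2 = (κ + 1) • A.e3 := by
      linear_combination (norm := module) g6 + g3
    have hκ : κ + 1 = A.C3 := by
      by_contra hne
      have := A.inj (mem 0 2 0 (by omega)) (mem 0 0 (κ + 1) (by omega))
        (by linear_combination (norm := module) g7)
      omega
    -- the corner (k - 1, 0, 2)
    obtain ⟨j, rfl⟩ : ∃ j, δ = j + 2 := ⟨δ - 2, by omega⟩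
    obtain ⟨ν, lν, g8⟩ : ∃ ν, ν < A.C2 ∧ (j + 1) • A.e1 + 2 • A.e3 = ν • A.e2 := by
      obtain ⟨a, b, c, hs, e⟩ := A.surj ((j + 1) • A.e1 + 0 • A.e2 + 2 • A.e3)
      have hn : ¬ A.S (j + 1) 0 2 := by
        intro h
        have := (hS _ _ _).1 h
        omega
      have ha := A.rep_x hn (by omega) (mem _ _ _ (by omega)) hs e
      have hc := A.rep_z hn (by omega) (mem _ _ _ (by omega)) hs e
      subst ha hc
      exact ⟨b, A.ltC2 hs, by linear_combination (norm := module) e⟩
    have g9 : A.e2 + A.e3 = ν • A.e2 + A.e1 := by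
      linear_combination (norm := module) g8 + g3
    rcases Nat.eq_zero_or_pos ν with rfl | hν
    · have := A.inj (mem 0 1 1 (by omega)) (mem 1 0 0 (by omega))
        (by linear_combination (norm := module) g9)
      omega
    · obtain ⟨m, rfl⟩ : ∃ m, ν = m + 1 := ⟨ν - 1, by omega⟩
      have g10 : A.e3 = m • A.e2 + A.e1 := by
        linear_combination (norm := module) g9
      have hm : ¬ A.S 1 m 0 := by
        intro hm
        have := A.inj hm (mem 0 0 1 (by omega)) (by linear_combination (norm := module) -g10)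
        omega
      have hm2 : j + 2 ≤ m := by
        by_contra hlt'
        exact hm (mem _ _ _ (by omega))
      have hmj : m = j + 2 := by omega
      subst hmj
      have hρ : ρ1 = 0 := by omega
      subst hρ
      rcases Nat.eq_zero_or_pos j with rfl | hj
      · -- k = 2
        have hκ2 : κ = 2 := by omega
        subst hκ2
        have := A.inj (mem 1 0 0 (by omega)) (mem 0 1 1 (by omega))
          (by linear_combination (norm := module) g6 + g10)
        omega
      · -- k ≥ 3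
        obtain ⟨c, lc, g11⟩ : ∃ c, c < A.C3 ∧ 2 • A.e1 + (j + 1) • A.e2 = c • A.e3 := by
          obtain ⟨a, b, c, hs, e⟩ := A.surj (2 • A.e1 + (j + 1) • A.e2 + 0 • A.e3)
          have hn : ¬ A.S 2 (j + 1) 0 := by
            intro h
            have := (hS _ _ _).1 h
            omega
          have ha := A.rep_x hn (by omega) (mem _ _ _ (by omega)) hs e
          have hb := A.rep_y hn (by omega) (mem _ _ _ (by omega)) hs e
          subst ha hb
          exact ⟨c, A.ltC3 hs, by linear_combination (norm := module) e⟩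
        have g12 : A.e1 + A.e3 = A.e2 + c • A.e3 := by
          linear_combination (norm := module) g11 + g10
        rcases Nat.lt_or_ge c 3 with hc | hc
        · interval_cases c
          · have := A.inj (mem 1 0 1 (by omega)) (mem 0 1 0 (by omega))
              (by linear_combination (norm := module) g12)
            omega
          · have := A.inj (mem 1 0 0 (by omega)) (mem 0 1 0 (by omega))
              (by linear_combination (norm := module) g12)
            omega
          · have := A.inj (mem 1 0 0 (by omega)) (mem 0 1 1 (by omega))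
              (by linear_combination (norm := module) g12)
            omega
        · obtain ⟨c', rfl⟩ : ∃ c', c = c' + 3 := ⟨c - 3, by omega⟩
          have := A.inj (mem 1 0 0 (by omega)) (mem 0 0 c' (by omega))
            (by linear_combination (norm := module) g12 + g1)
          omega

theorem kill {G : Type} [AddCommGroup G] (A : St G) (k : ℕ) (hk : 2 ≤ k)
    (hS : ∀ x y z, A.S x y z ↔ (x < A.C1 ∧ y < A.C2 ∧ z < A.C3) ∧
      (x = 0 ∨ y = 0 ∨ x + y ≤ k) ∧ (x = 0 ∨ z = 0 ∨ x + z ≤ k) ∧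
      (y = 0 ∨ z = 0 ∨ y + z ≤ 2))
    (h1 : k < A.C1) (h2 : k < A.C2) (h3 : k < A.C3)
    (hC : A.C1 + A.C2 + A.C3 = 3 * k + 4) : False := by
  have mem : ∀ x y z, (x < A.C1 ∧ y < A.C2 ∧ z < A.C3) ∧
      (x = 0 ∨ y = 0 ∨ x + y ≤ k) ∧ (x = 0 ∨ z = 0 ∨ x + z ≤ k) ∧
      (y = 0 ∨ z = 0 ∨ y + z ≤ 2) → A.S x y z := fun x y z h => (hS x y z).2 h
  obtain ⟨ρ1, l1, g1⟩ : ∃ ρ, ρ < A.C1 ∧ A.e2 + 2 • A.e3 = ρ • A.e1 := by
    obtain ⟨a, b, c, hs, e⟩ := A.surj (0 • A.e1 + 1 • A.e2 + 2 • A.e3)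
    have hn : ¬ A.S 0 1 2 := by
      intro h
      have := (hS _ _ _).1 h
      omega
    have hb := A.rep_y hn (by omega) (mem _ _ _ (by omega)) hs e
    have hc := A.rep_z hn (by omega) (mem _ _ _ (by omega)) hs e
    subst hb hc
    exact ⟨a, A.ltC1 hs, by linear_combination (norm := module) e⟩
  obtain ⟨ρ2, l2, g2⟩ : ∃ ρ, ρ < A.C1 ∧ 2 • A.e2 + A.e3 = ρ • A.e1 := by
    obtain ⟨a, b, c, hs, e⟩ := A.surj (0 • A.e1 + 2 • A.e2 + 1 • A.e3)
    have hn : ¬ A.S 0 2 1 := by
      intro h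
      have := (hS _ _ _).1 h
      omega
    have hb := A.rep_y hn (by omega) (mem _ _ _ (by omega)) hs e
    have hc := A.rep_z hn (by omega) (mem _ _ _ (by omega)) hs e
    subst hb hc
    exact ⟨a, A.ltC1 hs, by linear_combination (norm := module) e⟩
  rcases lt_trichotomy ρ1 ρ2 with h | h | h
  · exact kill_aux A k hk hS h1 h2 h3 hC ρ1 ρ2 l1 l2 g1 g2 h
  · subst h
    have := A.inj (mem 0 1 0 (by omega)) (mem 0 0 1 (by omega))
      (by linear_combination (norm := module) g2 - g1)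
    omega
  · refine kill_aux A.swap23 k hk ?_ h1 h3 h2 ?_ ρ2 ρ1 l2 l1 ?_ ?_ h
    · intro x y z
      show A.S x z y ↔ (x < A.C1 ∧ y < A.C3 ∧ z < A.C2) ∧ _
      rw [hS]
      constructor <;> intro h <;> omega
    · show A.C1 + A.C3 + A.C2 = 3 * k + 4
      omega
    · show A.e3 + 2 • A.e2 = ρ2 • A.e1
      linear_combination (norm := module) g2
    · show 2 • A.e3 + A.e2 = ρ1 • A.e1
      linear_combination (norm := module) g1

end Pool.Agent.Helper13.NS
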