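import Pool.Agent.Helper13.NS.Stair

/-!
# Volume of the minimal shape

Proof of `Ebox_card`, a lower bound for the number of points of the minimal shape.
-/

set_option autoImplicit false

namespace Pool.Agent.Helper13.NS

open Finset

/-- the minimal shape -/
def Ebox (p q r C1 C2 C3 : ℕ) : Finset (ℕ × ℕ × ℕ) :=
  (range C1 ×ˢ range C2 ×ˢ range C3).filter (fun u =>
    (u.1 = 0 ∨ u.2.1 = 0 ∨ u.1 + u.2.1 ≤ p) ∧
    (u.1 = 0 ∨ u.2.2 = 0 ∨ u.1 + u.2.2 ≤ q) ∧
    (u.2.1 = 0 ∨ u.2.2 = 0 ∨ u.2.1 + u.2.2 ≤ r))

namespace Vol0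

/-- number of lattice points of the open triangle -/
theorem tri (p a b : ℕ) (ha : p ≤ a + 1) (hb : p ≤ b + 1) :
    p * (p - 1) ≤ 2 * ∑ x ∈ range a, ∑ y ∈ range b, (if x + 1 + (y + 1) ≤ p then 1 else 0) := by
  have h1 : ∀ x ∈ range (p - 1), p - 1 - x ≤
      ∑ y ∈ range b, (if x + 1 + (y + 1) ≤ p then 1 else 0) := by
    intro x hx
    rw [mem_range] at hx
    rw [← Finset.card_filter]
    have : (range (p - 1 - x)) ⊆ (range b).filter (fun y => x + 1 + (y + 1) ≤ p) := by
      intro y hy
      rw [mem_range] at hy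
      rw [mem_filter, mem_range]
      omega
    have := card_le_card this
    simpa using this
  have h2 : ∑ x ∈ range (p - 1), (p - 1 - x) ≤
      ∑ x ∈ range a, ∑ y ∈ range b, (if x + 1 + (y + 1) ≤ p then 1 else 0) := by
    refine (Finset.sum_le_sum h1).trans ?_
    apply Finset.sum_le_sum_of_subset
    intro x hx
    rw [mem_range] at hx ⊢
    omega
  have h3 : ∑ x ∈ range p, (p - 1 - x) = ∑ x ∈ range p, x := Finset.sum_range_reflect (fun x => x) p
  have h4 : (∑ x ∈ range p, x) * 2 = p * (p - 1) := Finset.sum_range_id_mul_two p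
  have h5 : ∑ x ∈ range p, (p - 1 - x) = ∑ x ∈ range (p - 1), (p - 1 - x) := by
    rcases Nat.eq_zero_or_pos p with rfl | hp
    · simp
    · obtain ⟨k, rfl⟩ : ∃ k, p = k + 1 := ⟨p - 1, by omega⟩
      rw [Finset.sum_range_succ]
      simp
  omega

/-- antidiagonal sum -/
theorem anti (q r a b : ℕ) (ha : r ≤ a + 1) (hb : r ≤ b + 1) (hrq : r ≤ q) :
    ∑ s ∈ range r, s * (q - s) ≤
      ∑ y ∈ range a, ∑ z ∈ range b, (if y + 1 + (z + 1) ≤ r then q - (y + z + 1) else 0) := by
  induction r with
  | zero => simp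
  | succ r ih =>
    have ih' := ih (by omega) (by omega) (by omega)
    rw [Finset.sum_range_succ]
    have key : ∀ y ∈ range a, ∀ z ∈ range b,
        (if y + 1 + (z + 1) ≤ r + 1 then q - (y + z + 1) else 0) =
        (if y + 1 + (z + 1) ≤ r then q - (y + z + 1) else 0) +
          (if y + z + 1 = r then q - r else 0) := by
      intro y _ z _
      by_cases h1 : y + 1 + (z + 1) ≤ r
      · rw [if_pos h1, if_pos (by omega), if_neg (by omega)]
        omega
      · by_cases h2 : y + z + 1 = r
        · rw [if_neg h1, if_pos (by omega), if_pos h2]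
          omega
        · rw [if_neg h1, if_neg (by omega), if_neg h2]
    have e1 : ∑ y ∈ range a, ∑ z ∈ range b,
        (if y + 1 + (z + 1) ≤ r + 1 then q - (y + z + 1) else 0) =
        ∑ y ∈ range a, ∑ z ∈ range b, (if y + 1 + (z + 1) ≤ r then q - (y + z + 1) else 0) +
        ∑ y ∈ range a, ∑ z ∈ range b, (if y + z + 1 = r then q - r else 0) := by
      rw [← Finset.sum_add_distrib]
      apply Finset.sum_congr rfl
      intro y hy
      rw [← Finset.sum_add_distrib]
      apply Finset.sum_congr rfl
      intro z hz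
      exact key y hy z hz
    rw [e1]
    apply add_le_add ih'
    have h1 : ∀ y ∈ range r, q - r ≤ ∑ z ∈ range b, (if y + z + 1 = r then q - r else 0) := by
      intro y hy
      rw [mem_range] at hy
      have hm : (r - 1 - y) ∈ range b := by
        rw [mem_range]; omega
      have := Finset.single_le_sum (f := fun z => if y + z + 1 = r then q - r else 0)
        (fun i _ => Nat.zero_le _) hm
      have e : y + (r - 1 - y) + 1 = r := by omega
      simp only [e, if_true] at this
      exact this
    calc r * (q - r) = ∑ y ∈ range r, (q - r) := by simp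
      _ ≤ ∑ y ∈ range r, ∑ z ∈ range b, (if y + z + 1 = r then q - r else 0) :=
          Finset.sum_le_sum h1
      _ ≤ ∑ y ∈ range a, ∑ z ∈ range b, (if y + z + 1 = r then q - r else 0) := by
          apply Finset.sum_le_sum_of_subset
          intro x hx
          rw [mem_range] at hx ⊢
          omega

/-- the number of interior points -/
def inn (p q r a b c : ℕ) : ℕ :=
  ∑ x ∈ range a, ∑ y ∈ range b, ∑ z ∈ range c,
    (if (x + 1 + (y + 1) ≤ p) ∧ (x + 1 + (z + 1) ≤ q) ∧ (y + 1 + (z + 1) ≤ r) then 1 else 0)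

theorem inn_ge (p q r a b c : ℕ) (ha : p ≤ a) (hb : p ≤ b) (hc : q ≤ c)
    (hqp : q ≤ p) (hrq : r ≤ q) :
    ∑ s ∈ range r, s * (q - s) ≤ inn p q r a b c := by
  refine (anti q r b c (by omega) (by omega) hrq).trans ?_
  unfold inn
  conv_rhs => rw [Finset.sum_comm]
  apply Finset.sum_le_sum
  intro y hy
  conv_rhs => rw [Finset.sum_comm]
  apply Finset.sum_le_sum
  intro z hz
  by_cases h : y + 1 + (z + 1) ≤ r
  · rw [if_pos h]
    rw [← Finset.card_filter]
    have : (range (q - (y + z + 1))) ⊆ (range a).filter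
        (fun x => (x + 1 + (y + 1) ≤ p) ∧ (x + 1 + (z + 1) ≤ q) ∧ (y + 1 + (z + 1) ≤ r)) := by
      intro x hx
      rw [mem_range] at hx
      rw [mem_filter, mem_range]
      omega
    have := card_le_card this
    simpa using this
  · rw [if_neg h]
    exact Nat.zero_le _

/-- closed form -/
theorem cube_sum (q r : ℕ) (hrq : r ≤ q) :
    (6 : ℤ) * ((∑ s ∈ range r, s * (q - s) : ℕ) : ℤ) =
      3 * q * r * (r - 1) - r * (r - 1) * (2 * r - 1) := by
  induction r with
  | zero => simp
  | succ r ih =>
    have ih' := ih (by omega)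
    rw [Finset.sum_range_succ, Nat.cast_add, mul_add, ih', Nat.cast_mul,
      Nat.cast_sub (by omega)]
    push_cast
    ring

theorem inn_mono (p q r a b c a' b' c' : ℕ) (ha : a' ≤ a) (hb : b' ≤ b) (hc : c' ≤ c) :
    inn p q r a' b' c' ≤ inn p q r a b c := by
  unfold inn
  refine (Finset.sum_le_sum_of_subset (Finset.range_mono ha)).trans ?_
  apply Finset.sum_le_sum
  intro x _
  refine (Finset.sum_le_sum_of_subset (Finset.range_mono hb)).trans ?_
  apply Finset.sum_le_sum
  intro y _
  exact Finset.sum_le_sum_of_subset (Finset.range_mono hc)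

/-- counting by support -/
theorem card_split (p q r a b c : ℕ) :
    (Ebox p q r (a + 1) (b + 1) (c + 1)).card = 1 + a + b + c +
      ∑ x ∈ range a, ∑ y ∈ range b, (if x + 1 + (y + 1) ≤ p then 1 else 0) +
      ∑ x ∈ range a, ∑ z ∈ range c, (if x + 1 + (z + 1) ≤ q then 1 else 0) +
      ∑ y ∈ range b, ∑ z ∈ range c, (if y + 1 + (z + 1) ≤ r then 1 else 0) +
      inn p q r a b c := by
  unfold Ebox inn
  rw [Finset.card_filter, Finset.sum_product]
  simp only [Finset.sum_product]
  rw [Finset.sum_range_succ']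
  simp only [Finset.sum_range_succ', Finset.sum_add_distrib]
  simp
  ring

end Vol0

theorem Ebox_card (p q r C1 C2 C3 : ℕ)
    (h1 : p < C1) (h2 : p < C2) (h3 : q < C3)
    (hqp : q ≤ p) (hrq : r ≤ q) (h5 : 5 ≤ 1 + p + q + r)
    (hsum : 3 * (1 + p + q + r) ≤ 2 * (C1 + C2 + C3) + 1)
    (k1 : 1 + p + q + r ≤ 2 * C1 + 2) (k2 : 1 + p + q + r ≤ 2 * C2 + 2)
    (k3 : 1 + p + q + r ≤ 2 * C3 + 2) :
    (1 + p + q + r) ^ 2 ≤ 4 * (Ebox p q r C1 C2 C3).card ∨
    (p = q ∧ r = 2 ∧ C1 + C2 + C3 = 3 * p + 4 ∧
      (1 + p + q + r) ^ 2 = 4 * (Ebox p q r C1 C2 C3).card + 1) := by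
  obtain ⟨a, rfl⟩ : ∃ a, C1 = a + 1 := ⟨C1 - 1, by omega⟩
  obtain ⟨b, rfl⟩ : ∃ b, C2 = b + 1 := ⟨C2 - 1, by omega⟩
  obtain ⟨c, rfl⟩ : ∃ c, C3 = c + 1 := ⟨C3 - 1, by omega⟩
  have hcard := Vol0.card_split p q r a b c
  have t1 := Vol0.tri p a b (by omega) (by omega)
  have t2 := Vol0.tri q a c (by omega) (by omega)
  have t3 := Vol0.tri r b c (by omega) (by omega)
  have hi := Vol0.inn_ge p q r a b c (by omega) (by omega) (by omega) hqp hrq
  have hi2 : p = 4 → q = 3 → r = 3 → 5 ≤ Vol0.inn p q r a b c := by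
    rintro rfl rfl rfl
    have h := Vol0.inn_mono 4 3 3 a b c 4 4 3 (by omega) (by omega) (by omega)
    have h' : Vol0.inn 4 3 3 4 4 3 = 5 := by decide
    omega
  generalize (Ebox p q r (a + 1) (b + 1) (c + 1)).card = N at *
  generalize Vol0.inn p q r a b c = I at *
  generalize ∑ x ∈ range a, ∑ y ∈ range b, (if x + 1 + (y + 1) ≤ p then 1 else 0) = A at *
  generalize ∑ x ∈ range a, ∑ y ∈ range c, (if x + 1 + (y + 1) ≤ q then 1 else 0) = B at *
  generalize ∑ x ∈ range b, ∑ y ∈ range c, (if x + 1 + (y + 1) ≤ r then 1 else 0) = C at *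
  have q1 : (p : ℤ) * p ≤ 2 * A + p := by
    have e : p * (p - 1) = p * p - p := by rw [Nat.mul_sub, mul_one]
    have : p * p ≤ 2 * A + p := by omega
    exact_mod_cast this
  have q2 : (q : ℤ) * q ≤ 2 * B + q := by
    have e : q * (q - 1) = q * q - q := by rw [Nat.mul_sub, mul_one]
    have : q * q ≤ 2 * B + q := by omega
    exact_mod_cast this
  have q3 : (r : ℤ) * r ≤ 2 * C + r := by
    have e : r * (r - 1) = r * r - r := by rw [Nat.mul_sub, mul_one]
    have : r * r ≤ 2 * C + r := by omega
    exact_mod_cast this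
  have hF := Vol0.cube_sum q r hrq
  generalize (∑ s ∈ range r, s * (q - s) : ℕ) = F at *
  have hc : (N : ℤ) = 1 + a + b + c + A + B + C + I := by exact_mod_cast hcard
  have hiz : (F : ℤ) ≤ I := by exact_mod_cast hi
  obtain ⟨D, rfl⟩ : ∃ D, p = q + D := ⟨p - q, by omega⟩
  have hD0 : (0 : ℤ) ≤ D := by positivity
  have hq0 : (0 : ℤ) ≤ q := by positivity
  have main : ∀ m : ℕ, m ≤ a + b + c →
      (4 : ℤ) * N ≥ 4 + 4 * m + 2 * ((q + D) * (q + D) - (q + D)) + 2 * (q * q - q) +
        2 * (r * r - r) + 4 * I := by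
    intro m hm
    have : (m : ℤ) ≤ a + b + c := by exact_mod_cast hm
    push_cast at q1
    linarith
  have hsz : (3 : ℤ) * (1 + (q + D) + q + r) ≤ 2 * (a + b + c + 3) + 1 := by
    have : 3 * (1 + (q + D) + q + r) ≤ 2 * (a + b + c + 3) + 1 := by omega
    exact_mod_cast this
  -- general bound
  have gen : (4 : ℤ) * N ≥ 6 * (1 + (q + D) + q + r) - 10 +
      2 * ((q + D) * (q + D) - (q + D)) + 2 * (q * q - q) +
        2 * (r * r - r) + 4 * I := by
    push_cast at q1
    linarith
  have fin : ((1 + (q + D) + q + r : ℤ)) ^ 2 ≤ 4 * N → (1 + (q + D) + q + r) ^ 2 ≤ 4 * N := by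
    intro h
    exact_mod_cast h
  have hI : (0 : ℤ) ≤ I := by positivity
  clear q1 q2 q3 hc hcard t1 t2 t3 hsz hi
  rcases Nat.lt_or_ge r 4 with hr | hr
  · interval_cases r
    · -- r = 0
      left
      apply fin
      have h7 : (4 : ℤ) ≤ q + D + q := by
        have : 4 ≤ q + D + q := by omega
        exact_mod_cast this
      have h8 : (0 : ℤ) ≤ (D : ℤ) * D := by positivity
      push_cast at gen ⊢
      linarith
    · -- r = 1
      left
      apply fin
      rcases Nat.lt_or_ge D 2 with hD | hD
      · interval_cases D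
        · have h9 := main (3 * q) (by omega)
          push_cast at h9 ⊢
          linarith
        · have h9 := main (3 * q + 2) (by omega)
          push_cast at h9 ⊢
          linarith
      · have hD' : (2 : ℤ) ≤ D := by exact_mod_cast hD
        have hD2 : (4 : ℤ) ≤ (D : ℤ) * D := by nlinarith
        push_cast at gen ⊢
        linarith
    · -- r = 2
      have hF' : (F : ℤ) = q - 1 := by
        push_cast at hF
        linarith
      rcases Nat.lt_or_ge D 3 with hD | hD
      · interval_cases D
        · have hS : 3 * q + 1 ≤ a + b + c := by omega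
          by_cases hS' : 3 * q + 2 ≤ a + b + c
          · left
            apply fin
            have h9 := main _ hS'
            push_cast at h9 ⊢
            linarith
          · have h4 := main _ hS
            have h5 : ((1 + (q + (0 : ℕ)) + q + (2 : ℕ) : ℤ)) ^ 2 ≤ 4 * N + 1 := by
              push_cast at h4 ⊢
              linarith
            by_cases h6 : ((1 + (q + (0 : ℕ)) + q + (2 : ℕ) : ℤ)) ^ 2 ≤ 4 * N
            · left
              exact fin h6
            · right
              refine ⟨rfl, rfl, by omega, ?_⟩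
              have h7 : ((1 + (q + (0 : ℕ)) + q + (2 : ℕ) : ℤ)) ^ 2 = 4 * N + 1 := by
                omega
              exact_mod_cast h7
        · left
          apply fin
          have h9 := main (3 * q + 3) (by omega)
          push_cast at h9 ⊢
          linarith
        · left
          apply fin
          have h9 := main (3 * q + 5) (by omega)
          push_cast at h9 ⊢
          linarith
      · left
        apply fin
        have hD' : (3 : ℤ) ≤ D := by exact_mod_cast hD
        have hD2 : (3 : ℤ) * D ≤ (D : ℤ) * D := by nlinarith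
        push_cast at gen ⊢
        linarith
    · -- r = 3
      left
      apply fin
      have hF' : (F : ℤ) = 3 * q - 5 := by
        push_cast at hF
        linarith
      rcases Nat.lt_or_ge q 4 with hq | hq
      · have hq3 : q = 3 := by omega
        subst hq3
        rcases Nat.lt_or_ge D 4 with hD | hD
        · interval_cases D
          · push_cast at gen hF' ⊢
            linarith
          · have h5 : 5 ≤ I := hi2 rfl rfl rfl
            have h5' : (5 : ℤ) ≤ I := by exact_mod_cast h5
            push_cast at gen ⊢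
            linarith
          · have h9 := main 15 (by omega)
            push_cast at h9 hF' ⊢
            linarith
          · have h9 := main 17 (by omega)
            push_cast at h9 hF' ⊢
            linarith
        · have hD' : (4 : ℤ) ≤ D := by exact_mod_cast hD
          have hD2 : (4 : ℤ) * D ≤ (D : ℤ) * D := by nlinarith
          push_cast at gen hF' ⊢
          linarith
      · have hq' : (4 : ℤ) ≤ q := by exact_mod_cast hq
        have h8 := mul_self_nonneg ((D : ℤ) - 2)
        push_cast at gen ⊢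
        linarith
  · left
    apply fin
    obtain ⟨e, rfl⟩ : ∃ e, q = r + e := ⟨q - r, by omega⟩
    obtain ⟨k, rfl⟩ : ∃ k, r = 4 + k := ⟨r - 4, by omega⟩
    have he : (0 : ℤ) ≤ e := by positivity
    have hk : (0 : ℤ) ≤ k := by positivity
    have hsq := mul_self_nonneg ((D : ℤ) - (k + 3))
    have h1 : (0 : ℤ) ≤ e * k * k := by positivity
    have h2 : (0 : ℤ) ≤ e * k := by positivity
    have h3 : (0 : ℤ) ≤ (k : ℤ) * k * k := by positivity
    have h4 : (0 : ℤ) ≤ (k : ℤ) * k := by positivity
    push_cast at gen hF ⊢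
    linarith

end Pool.Agent.Helper13.NS
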