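import Pool.Agent.Helper60.Gallai

/-! The abstract chain argument: a logarithm `θ : ℕ → H`, the maps
`x ↦ x + θ b` and `x ↦ x + b • θ b`, and a uniformly recurrent colouring of `H`. -/

namespace H60

open Set

variable {H : Type*} [AddCommGroup H]

/-- Uniform recurrence along the image of `θ`. -/
def UR {κ : Type*} (θ : ℕ → H) (χ : H → κ) : Prop :=
  ∀ F : Set H, F.Finite → ∃ K : Set ℕ, K.Finite ∧ (∀ h ∈ K, 0 < h) ∧
    ∀ x y : H, ∃ h ∈ K, ∀ v ∈ F, χ (y + θ h + v) = χ (x + v)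

/-- Lemma A. -/
theorem lemmaA {κ : Type*} [Finite κ] (θ : ℕ → H)
    (hθ : ∀ m n, 0 < m → 0 < n → θ (m * n) = θ m + θ n)
    (χ : H → κ) {F W : Set H} (hF : F.Finite) (hW : W.Finite) :
    ∃ (D : ℕ) (U V : Set H), U.Finite ∧ V.Finite ∧ ∀ (y : H) (N : ℕ), 0 < N →
      ∃ d : ℕ, 0 < d ∧ d ≤ D ∧ ∃ u ∈ U, ∃ v' ∈ V, ∀ v ∈ F, ∀ w ∈ W,
        χ (y + N • u + v' + v + (N * d) • w) = χ (y + N • u + v' + v) ∧
        χ (y + N • u + v' + θ (N * d) + v + (N * d) • w)
          = χ (y + N • u + v' + θ (N * d) + v) := by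
  classical
  -- add zero to `W`
  set W' : Set H := insert 0 W with hW'
  have hW'f : W'.Finite := hW.insert 0
  have : Finite F := hF
  obtain ⟨S, U₁, hU₁f, hG₁⟩ := gallai_set hW'f (F → κ)
  -- second configuration
  set W₂ : Set H := (fun p : H × ℕ × H => p.1 + p.2.1 • p.2.2) '' (U₁ ×ˢ (Iic S ×ˢ W')) with hW₂
  have hW₂f : W₂.Finite := (hU₁f.prod ((finite_Iic S).prod hW'f)).image _
  set F₂ : Set H := (fun p : ℕ × H => θ p.1 + p.2) '' (Iic S ×ˢ F) with hF₂
  have hF₂f : F₂.Finite := ((finite_Iic S).prod hF).image _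
  have : Finite F₂ := hF₂f
  obtain ⟨D₀, U₀, hU₀f, hG₀⟩ := gallai_set hW₂f (F₂ → κ)
  refine ⟨D₀ * S, (fun p : H × ℕ × H => p.1 + p.2.1 • p.2.2) '' (U₀ ×ˢ (Iic D₀ ×ˢ U₁)),
    (fun d => - θ d) '' (Iic D₀), (hU₀f.prod ((finite_Iic D₀).prod hU₁f)).image _,
    (finite_Iic D₀).image _, ?_⟩
  intro y N hN
  obtain ⟨d₀, hd₀, hd₀D, u₀, hu₀, k₀, hk₀⟩ :=
    hG₀ (fun m => fun f : F₂ => χ (y + θ N + N • m + f))
  obtain ⟨t, ht, htS, u₁, hu₁, k₁, hk₁⟩ :=
    hG₁ (fun m => fun v : F => χ (y + N • u₀ - θ d₀ + (N * d₀) • m + v))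
  refine ⟨d₀ * t, Nat.mul_pos hd₀ ht, Nat.mul_le_mul hd₀D htS, u₀ + d₀ • u₁,
    ⟨(u₀, d₀, u₁), ⟨hu₀, hd₀D, hu₁⟩, rfl⟩, - θ d₀, ⟨d₀, hd₀D, rfl⟩, ?_⟩
  have key1 : ∀ v, ∀ hv : v ∈ F, ∀ w ∈ W',
      χ (y + N • (u₀ + d₀ • u₁) + - θ d₀ + v + (N * (d₀ * t)) • w) = k₁ ⟨v, hv⟩ := by
    intro v hv w hw
    have := congrFun (hk₁ w hw) ⟨v, hv⟩
    rw [← this]
    simp only
    congr 1
    simp only [smul_add, mul_smul]
    abel
  have key2 : ∀ v, ∀ hv : v ∈ F, ∀ w ∈ W',
      χ (y + N • (u₀ + d₀ • u₁) + - θ d₀ + θ (N * (d₀ * t)) + v + (N * (d₀ * t)) • w)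
      = k₀ ⟨θ t + v, ⟨(t, v), ⟨htS, hv⟩, rfl⟩⟩ := by
    intro v hv w hw
    have := congrFun (hk₀ (u₁ + t • w) ⟨(u₁, t, w), ⟨hu₁, htS, hw⟩, rfl⟩)
      ⟨θ t + v, ⟨(t, v), ⟨htS, hv⟩, rfl⟩⟩
    rw [← this]
    simp only
    congr 1
    rw [hθ N (d₀ * t) hN (Nat.mul_pos hd₀ ht), hθ d₀ t hd₀ ht]
    simp only [smul_add, mul_smul]
    abel
  intro v hv w hw
  have h0 : (0 : H) ∈ W' := mem_insert _ _
  have hw' : w ∈ W' := mem_insert_of_mem _ hw
  constructor
  · have a := key1 v hv w hw'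
    have b := key1 v hv 0 h0
    rw [smul_zero, add_zero] at b
    rw [a, b]
  · have a := key2 v hv w hw'
    have b := key2 v hv 0 h0
    rw [smul_zero, add_zero] at b
    rw [a, b]

/-- The map `n ↦ n • θ n`. -/
def gg (θ : ℕ → H) (n : ℕ) : H := n • θ n

theorem gg_mul (θ : ℕ → H) (hθ : ∀ m n, 0 < m → 0 < n → θ (m * n) = θ m + θ n)
    {m n : ℕ} (hm : 0 < m) (hn : 0 < n) :
    gg θ (m * n) = n • gg θ m + m • gg θ n := by
  unfold gg
  rw [hθ m n hm hn, smul_add, mul_comm m n, mul_smul, mul_comm n m, mul_smul]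

/-- The chain claim: longer and longer rainbow configurations. -/
theorem chain {κ : Type*} [Finite κ] (θ : ℕ → H)
    (hθ : ∀ m n, 0 < m → 0 < n → θ (m * n) = θ m + θ n)
    (χ : H → κ) (hUR : UR θ χ) (j : ℕ) :
    ∃ (V U : Set H) (B T : ℕ), V.Finite ∧ U.Finite ∧ ∀ (y : H) (N : ℕ), 2 ≤ N →
      (∀ (z : H) (t : ℕ), 0 < t → t ≤ T →
        ¬ (χ (z + θ (N * t)) = χ z ∧ χ (z + gg θ (N * t)) = χ z)) →
      ∃ v ∈ V, ∃ (s : Fin j → ℕ) (u : Fin j → H), (∀ i, s i ≤ B) ∧ (∀ i, u i ∈ U) ∧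
        Function.Injective (fun i => χ (y + v + s i • gg θ N + N • u i)) := by
  classical
  induction j with
  | zero =>
    refine ⟨{0}, ∅, 0, 0, finite_singleton _, finite_empty, fun y N _ _ => ⟨0, rfl, Fin.elim0,
      Fin.elim0, fun i => i.elim0, fun i => i.elim0, fun i => i.elim0⟩⟩
  | succ j ih =>
    obtain ⟨V, U, B, T, hV, hU, hC⟩ := ih
    obtain ⟨K_H, hKf, hKpos, hK⟩ := hUR V hV
    obtain ⟨K, hlC⟩ := lemmaC K_H hKf hKpos (B + 1)
    -- the configuration `W`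
    set W : Set H := (fun p : ℕ × ℕ × ℕ × H =>
      gg θ p.1 + p.2.2.1 • gg θ p.2.1 - gg θ (p.1 + p.2.2.1 * p.2.1) + p.2.1 • p.2.2.2) ''
      (Iic K ×ˢ (Iic K ×ˢ (Iic B ×ˢ U))) with hW
    have hWf : W.Finite :=
      ((finite_Iic K).prod ((finite_Iic K).prod ((finite_Iic B).prod hU))).image _
    set F : Set H := V ∪ (fun p : H × ℕ => p.1 + θ p.2) '' (V ×ˢ Iic K) with hF
    have hFf : F.Finite := hV.union ((hV.prod (finite_Iic K)).image _)
    obtain ⟨D, UA, VA, hUA, hVA, hA⟩ := lemmaA θ hθ χ hFf hWf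
    refine ⟨(fun p : H × H => p.1 + p.2) '' (V ×ˢ VA),
      UA ∪ (fun p : H × ℕ × ℕ × ℕ × ℕ × H =>
        p.1 + gg θ (p.2.1 * p.2.2.1) + p.2.2.2.2.1 • gg θ (p.2.1 * p.2.2.2.1)
          + (p.2.1 * p.2.2.2.1) • p.2.2.2.2.2) ''
        (UA ×ˢ (Iic D ×ˢ (Iic K ×ˢ (Iic K ×ˢ (Iic B ×ˢ U))))), D * K, D * K * (T + 1),
      (hV.prod hVA).image _, hUA.union ((hUA.prod ((finite_Iic D).prod ((finite_Iic K).prod
        ((finite_Iic K).prod ((finite_Iic B).prod hU))))).image _), ?_⟩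
    intro y N hN hno
    have hN' : 0 < N := by omega
    obtain ⟨d, hd, hdD, uA, huA, vA, hvA, hA'⟩ := hA y N hN'
    set x : H := y + N • uA + vA with hx
    set n : ℕ := N * d with hn
    have hnpos : 0 < n := Nat.mul_pos hN' hd
    obtain ⟨k, k', hk, hk', hkK, hkB⟩ := hlC {q | ∀ v ∈ V, χ (x + θ n + θ q + v) = χ (x + v)} (by
      intro k hk
      obtain ⟨h, hh, hh'⟩ := hK x (x + θ n + θ k)
      refine ⟨h, hh, fun v hv => ?_⟩
      rw [hθ h k (hKpos h hh) hk, ← hh' v hv]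
      congr 1
      abel)
    have hkK1 : k ≤ K := le_trans (Nat.le_add_right _ _) hkK
    have hkK2 : k' ≤ K := by nlinarith [Nat.zero_le k, Nat.zero_le (B * k')]
    obtain ⟨v, hv, s, u, hs, hu, hinj⟩ := hC (x + gg θ (n * k)) (n * k')
      (le_trans hN (by
        calc N = N * 1 := (mul_one N).symm
          _ ≤ N * (d * k') := Nat.mul_le_mul le_rfl (Nat.mul_pos hd hk')
          _ = n * k' := by rw [hn, mul_assoc]))
      (by
        intro z t ht htT
        have h1 : n * k' * t = N * (d * k' * t) := by rw [hn]; ring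
        rw [h1]
        refine hno z (d * k' * t) (Nat.mul_pos (Nat.mul_pos hd hk') ht) ?_
        exact Nat.mul_le_mul (Nat.mul_le_mul hdD hkK2) (le_trans htT (Nat.le_succ T)))
    have hs' : ∀ i, s i ≤ B + 1 := fun i => le_trans (hs i) (Nat.le_succ _)
    have hkk : ∀ i, k + s i * k' ≤ K := fun i =>
      le_trans (Nat.add_le_add_left (Nat.mul_le_mul_right _ (hs' i)) _) hkK
    refine ⟨v + vA, ⟨(v, vA), ⟨hv, hvA⟩, rfl⟩,
      Fin.cons 0 (fun i => d * (k + s i * k')),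
      Fin.cons uA (fun i => uA + gg θ (d * k) + s i • gg θ (d * k') + (d * k') • u i), ?_, ?_, ?_⟩
    · intro i
      refine Fin.cases ?_ (fun i => ?_) i
      · simp
      · simp only [Fin.cons_succ]
        exact Nat.mul_le_mul hdD (hkk i)
    · intro i
      refine Fin.cases ?_ (fun i => ?_) i
      · simp only [Fin.cons_zero]
        exact Or.inl huA
      · simp only [Fin.cons_succ]
        exact Or.inr ⟨(uA, d, k, k', s i, u i), ⟨huA, hdD, hkK1, hkK2, hs i, hu i⟩, rfl⟩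
    · -- the new points
      have hdk : 0 < d * k := Nat.mul_pos hd hk
      have hdk' : 0 < d * k' := Nat.mul_pos hd hk'
      have hP : ∀ i, y + (v + vA) + (d * (k + s i * k')) • gg θ N
          + N • (uA + gg θ (d * k) + s i • gg θ (d * k') + (d * k') • u i)
          = x + gg θ (n * k) + v + s i • gg θ (n * k') + (n * k') • u i := by
        intro i
        have e1 : gg θ (n * k) = (d * k) • gg θ N + N • gg θ (d * k) := by
          rw [hn, mul_assoc]; exact gg_mul θ hθ hN' hdk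
        have e2 : gg θ (n * k') = (d * k') • gg θ N + N • gg θ (d * k') := by
          rw [hn, mul_assoc]; exact gg_mul θ hθ hN' hdk'
        rw [e1, e2, hx, hn]
        module
      have hne : ∀ i, χ (x + gg θ (n * k) + v + s i • gg θ (n * k') + (n * k') • u i)
          ≠ χ (x + v) := by
        intro i heq
        set q := k + s i * k' with hq
        have hqpos : 0 < q := Nat.add_pos_left hk _
        set w : H := gg θ k + s i • gg θ k' - gg θ q + k' • u i with hw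
        have hwW : w ∈ W := ⟨(k, k', s i, u i), ⟨hkK1, hkK2, hs i, hu i⟩, rfl⟩
        have hvF : v ∈ F := Or.inl hv
        have hvF' : v + θ q ∈ F := Or.inr ⟨(v, q), ⟨hv, hkk i⟩, rfl⟩
        have a1 := (hA' v hvF w hwW).1
        have a2 := (hA' (v + θ q) hvF' w hwW).2
        have a3 := hkB (s i) (hs' i) v hv
        have hnq : N * (d * q) = n * q := by rw [hn, mul_assoc]
        have hdq : d * q ≤ D * K * (T + 1) := by
          calc d * q ≤ D * K := Nat.mul_le_mul hdD (hkk i)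
            _ = D * K * 1 := (mul_one _).symm
            _ ≤ D * K * (T + 1) := Nat.mul_le_mul le_rfl (Nat.succ_le_succ (Nat.zero_le T))
        have hno' := hno (x + v + n • w) (d * q) (Nat.mul_pos hd hqpos) hdq
        rw [hnq] at hno'
        refine hno' ⟨?_, ?_⟩
        · rw [a1, hθ n q hnpos hqpos]
          have e3 : x + v + n • w + (θ n + θ q) = x + θ n + (v + θ q) + n • w := by abel
          rw [e3, a2]
          have e4 : x + θ n + (v + θ q) = x + θ n + θ q + v := by abel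
          rw [e4, a3]
        · rw [a1, ← heq]
          congr 1
          rw [gg_mul θ hθ hnpos hqpos, gg_mul θ hθ hnpos hk, gg_mul θ hθ hnpos hk', hw, hq]
          module
      have h0 : ∀ i, χ (y + (v + vA) + (Fin.cons 0 (fun i => d * (k + s i * k')) : Fin (j+1) → ℕ) i
          • gg θ N + N • (Fin.cons uA (fun i => uA + gg θ (d * k) + s i • gg θ (d * k')
            + (d * k') • u i) : Fin (j+1) → H) i)
          = (Fin.cons (χ (x + v)) (fun i => χ (x + gg θ (n * k) + v + s i • gg θ (n * k')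
            + (n * k') • u i)) : Fin (j+1) → κ) i := by
        intro i
        refine Fin.cases ?_ (fun i => ?_) i
        · simp only [Fin.cons_zero]
          congr 1
          rw [hx]
          module
        · simp only [Fin.cons_succ]
          rw [hP i]
      have h1 : (fun i => χ (y + (v + vA) + (Fin.cons 0 (fun i => d * (k + s i * k'))
          : Fin (j+1) → ℕ) i • gg θ N + N • (Fin.cons uA (fun i => uA + gg θ (d * k)
            + s i • gg θ (d * k') + (d * k') • u i) : Fin (j+1) → H) i))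
          = (Fin.cons (χ (x + v)) (fun i => χ (x + gg θ (n * k) + v + s i • gg θ (n * k')
            + (n * k') • u i)) : Fin (j+1) → κ) := funext h0
      rw [h1]
      rw [Fin.cons_injective_iff]
      refine ⟨?_, hinj⟩
      rintro ⟨i, hi⟩
      exact hne i hi

/-- The conclusion of the chain argument. -/
theorem triple_of_UR {κ : Type*} [Finite κ] (θ : ℕ → H)
    (hθ : ∀ m n, 0 < m → 0 < n → θ (m * n) = θ m + θ n)
    (χ : H → κ) (hUR : UR θ χ) :
    ∃ T : ℕ, ∀ N : ℕ, 2 ≤ N → ∃ (z : H) (t : ℕ), 0 < t ∧ t ≤ T ∧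
      χ (z + θ (N * t)) = χ z ∧ χ (z + gg θ (N * t)) = χ z := by
  obtain ⟨V, U, B, T, -, -, h⟩ := chain θ hθ χ hUR (Nat.card κ + 1)
  refine ⟨T, fun N hN => ?_⟩
  by_contra hcon
  have hno : ∀ (z : H) (t : ℕ), 0 < t → t ≤ T →
      ¬ (χ (z + θ (N * t)) = χ z ∧ χ (z + gg θ (N * t)) = χ z) := by
    intro z t ht htT h
    exact hcon ⟨z, t, ht, htT, h.1, h.2⟩
  obtain ⟨v, -, s, u, -, -, hinj⟩ := h 0 N hN hno
  have := Nat.card_le_card_of_injective _ hinj
  rw [Nat.card_eq_fintype_card, Fintype.card_fin] at this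
  omega

end H60
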