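import Mathlib

set_option autoImplicit false

/-!
# A colouring for powers of a common integer

There is a colouring `c` of `ℕ` with seven colours such that `c a ≠ c (a ^ (b + 1))` whenever
`a, b > 1` are powers of one integer.
-/

namespace Pool.Agent.Helper60.CommonBase

open Finset

/-- `t > 1` has a power which is a power of `n` -/
def P (n t : ℕ) : Prop := 1 < t ∧ ∃ i j, 0 < i ∧ 0 < j ∧ t ^ i = n ^ j

/-- the least integer `t > 1` commensurable with `n` -/
noncomputable def root (n : ℕ) : ℕ := sInf {t | P n t}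

lemma P_root {n : ℕ} (hn : 1 < n) : P n (root n) :=
  Nat.sInf_mem (s := {t | P n t}) ⟨n, hn, 1, 1, one_pos, one_pos, rfl⟩

lemma root_pow {n k : ℕ} (hk : 0 < k) : root (n ^ k) = root n := by
  unfold root
  congr 1
  ext t
  constructor
  · rintro ⟨ht, i, j, hi, hj, h⟩
    exact ⟨ht, i, k * j, hi, by positivity, by rw [h, ← pow_mul]⟩
  · rintro ⟨ht, i, j, hi, hj, h⟩
    refine ⟨ht, i * k, j, by positivity, hj, ?_⟩
    rw [pow_mul, h, ← pow_mul, ← pow_mul, mul_comm]

lemma eq_root_pow {n : ℕ} (hn : 1 < n) : ∃ k, 0 < k ∧ n = root n ^ k := by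
  obtain ⟨ht, i, j, hi, hj, h⟩ := P_root hn
  obtain ⟨c, h1, h2⟩ := Nat.exists_eq_pow_of_pow_eq_pow (Or.inl hi.ne') h
  have hg : 0 < Nat.gcd i j := Nat.gcd_pos_of_pos_left _ hi
  have hi' : 0 < i / Nat.gcd i j := Nat.div_pos (Nat.le_of_dvd hi (Nat.gcd_dvd_left _ _)) hg
  have hj' : 0 < j / Nat.gcd i j := Nat.div_pos (Nat.le_of_dvd hj (Nat.gcd_dvd_right _ _)) hg
  have hc : 1 < c := by
    by_contra hc
    have : c ^ (i / Nat.gcd i j) ≤ 1 := by
      rcases Nat.lt_or_ge c 1 with h3 | h3
      · have : c = 0 := by omega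
        subst this
        rw [zero_pow hi'.ne']
        exact Nat.zero_le _
      · have : c = 1 := by omega
        subst this
        simp
    omega
  have hle : root n ≤ c :=
    Nat.sInf_le ⟨hc, i / Nat.gcd i j, 1, hi', one_pos, by rw [pow_one]; exact h2.symm⟩
  have hj1 : j / Nat.gcd i j = 1 := by
    by_contra hcon
    have h3 : 1 < j / Nat.gcd i j := by omega
    have h4 : c ^ 1 < c ^ (j / Nat.gcd i j) := Nat.pow_lt_pow_right hc h3
    rw [pow_one, ← h1] at h4
    omega
  rw [hj1, pow_one] at h1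
  exact ⟨_, hi', by rw [h1]; exact h2⟩

/-! ### Greedy colouring -/

lemma greedy {X : Type} [Fintype X] [DecidableEq X] (N : X → Finset X) (k : ℕ)
    (hN : ∀ x, #(N x) ≤ k) (hs : ∀ x y, y ∈ N x → x ∈ N y) (hx : ∀ x, x ∉ N x) :
    ∃ κ : X → Fin (k + 1), ∀ x y, y ∈ N x → κ x ≠ κ y := by
  have key : ∀ S : Finset X, ∃ κ : X → Fin (k + 1), ∀ x ∈ S, ∀ y ∈ S, y ∈ N x → κ x ≠ κ y := by
    intro S
    induction S using Finset.induction with
    | empty => exact ⟨fun _ => 0, by simp⟩
    | insert z S hz ih =>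
      obtain ⟨κ, hκ⟩ := ih
      obtain ⟨t, ht⟩ : ∃ t : Fin (k + 1), t ∉ (N z).image κ := by
        by_contra hcon
        push Not at hcon
        have h1 : (Finset.univ : Finset (Fin (k + 1))) ⊆ (N z).image κ := fun t _ => hcon t
        have h2 := Finset.card_le_card h1
        rw [Finset.card_univ, Fintype.card_fin] at h2
        have h3 : #((N z).image κ) ≤ #(N z) := Finset.card_image_le
        have := hN z
        omega
      have ht' : ∀ y ∈ N z, κ y ≠ t := fun y hy h => ht (Finset.mem_image.2 ⟨y, hy, h⟩)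
      refine ⟨Function.update κ z t, fun x hxS0 y hyS hxy => ?_⟩
      rcases Finset.mem_insert.1 hxS0 with rfl | hxS
      · have hne : y ≠ x := fun h => hx x (h ▸ hxy)
        rw [Function.update_self, Function.update_of_ne hne]
        exact fun h => ht' y hxy h.symm
      · by_cases hy : y = z
        · subst hy
          have hne : x ≠ y := fun h => hz (h ▸ hxS)
          rw [Function.update_self, Function.update_of_ne hne]
          exact ht' x (hs _ _ hxy)
        · have hyS' : y ∈ S := (Finset.mem_insert.1 hyS).resolve_left hy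
          have hne : x ≠ z := fun h => hz (h ▸ hxS)
          rw [Function.update_of_ne hne, Function.update_of_ne hy]
          exact hκ x hxS y hyS' hxy
  obtain ⟨κ, hκ⟩ := key Finset.univ
  exact ⟨κ, fun x y h => hκ x (Finset.mem_univ _) y (Finset.mem_univ _) h⟩

/-- the colouring of the Cayley graph of `F_q^*` with three generators different from `1` -/
lemma cayley (q : ℕ) [Fact q.Prime] (D : Finset (ZMod q)) (hD : #D ≤ 3) (h0 : 0 ∉ D)
    (h1 : 1 ∉ D) : ∃ κ : ZMod q → Fin 7, ∀ u d, u ≠ 0 → d ∈ D → κ u ≠ κ (u * d) := by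
  classical
  obtain ⟨κ, hκ⟩ := greedy (X := ZMod q)
    (fun x => if x = 0 then ∅ else D.image (fun d => x * d) ∪ D.image (fun d => x * d⁻¹)) 6
    (by
      intro x
      by_cases hx : x = 0
      · simp [hx]
      · rw [if_neg hx]
        have h2 : #(D.image (fun d => x * d)) ≤ #D := Finset.card_image_le
        have h3 : #(D.image (fun d => x * d⁻¹)) ≤ #D := Finset.card_image_le
        have h4 := Finset.card_union_le (D.image (fun d => x * d)) (D.image (fun d => x * d⁻¹))
        omega)
    (by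
      intro x y hy
      by_cases hx : x = 0
      · simp [hx] at hy
      · rw [if_neg hx, Finset.mem_union, Finset.mem_image, Finset.mem_image] at hy
        rcases hy with ⟨d, hd, rfl⟩ | ⟨d, hd, rfl⟩
        · have hd0 : d ≠ 0 := fun h => h0 (h ▸ hd)
          rw [if_neg (mul_ne_zero hx hd0), Finset.mem_union]
          right
          exact Finset.mem_image.2 ⟨d, hd, by field_simp⟩
        · have hd0 : d ≠ 0 := fun h => h0 (h ▸ hd)
          rw [if_neg (mul_ne_zero hx (inv_ne_zero hd0)), Finset.mem_union]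
          left
          exact Finset.mem_image.2 ⟨d, hd, by field_simp⟩)
    (by
      intro x hx
      by_cases hx0 : x = 0
      · simp [hx0] at hx
      · rw [if_neg hx0, Finset.mem_union, Finset.mem_image, Finset.mem_image] at hx
        rcases hx with ⟨d, hd, h⟩ | ⟨d, hd, h⟩
        · have : d = 1 := by
            have : x * d = x * 1 := by rw [h, mul_one]
            exact mul_left_cancel₀ hx0 this
          exact h1 (this ▸ hd)
        · have : d⁻¹ = 1 := by
            have : x * d⁻¹ = x * 1 := by rw [h, mul_one]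
            exact mul_left_cancel₀ hx0 this
          rw [inv_eq_one] at this
          exact h1 (this ▸ hd))
  refine ⟨κ, fun u d hu hd => hκ u (u * d) ?_⟩
  rw [if_neg hu, Finset.mem_union]
  left
  exact Finset.mem_image.2 ⟨d, hd, rfl⟩

/-! ### The prime belonging to a base -/

lemma exists_prime (m : ℕ) (hm : 1 < m) : ∃ q : ℕ, q.Prime ∧ q ∣ m ^ 2 + m + 1 := by
  have : m ^ 2 + m + 1 ≠ 1 := by intro h; nlinarith
  exact Nat.exists_prime_and_dvd this

/-- a colour for the base `m`: there are a prime `q` and `κ` with the avoidance property -/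
lemma exists_kappa (m : ℕ) (hm : 1 < m) : ∃ (q : ℕ) (κ : ℕ → Fin 7), q.Prime ∧
    ∀ i j : ℕ, 0 < i → κ (ordCompl[q] i) ≠ κ (ordCompl[q] (i * (m ^ j + 1))) := by
  obtain ⟨q, hq, hdvd⟩ := exists_prime m hm
  have : Fact q.Prime := ⟨hq⟩
  set μ : ZMod q := (m : ZMod q) with hμ
  have hrel : μ ^ 2 + μ + 1 = 0 := by
    have h := (ZMod.natCast_eq_zero_iff (m ^ 2 + m + 1) q).2 hdvd
    push_cast at h
    exact h
  have hq2 : (2 : ZMod q) ≠ 0 := by
    intro h
    have h2 : ((2 : ℕ) : ZMod q) = 0 := by exact_mod_cast h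
    rw [ZMod.natCast_eq_zero_iff] at h2
    have h3 : q = 2 := (Nat.prime_dvd_prime_iff_eq hq Nat.prime_two).1 h2
    subst h3
    have : ¬ 2 ∣ m ^ 2 + m + 1 := by
      rcases Nat.even_or_odd' m with ⟨r, rfl | rfl⟩
      · intro h; have : 2 ∣ (2 * r) ^ 2 + 2 * r := ⟨2 * r ^ 2 + r, by ring⟩
        omega
      · intro h; have : 2 ∣ (2 * r + 1) ^ 2 + (2 * r + 1) := ⟨2 * r ^ 2 + 3 * r + 1, by ring⟩
        omega
    exact this hdvd
  have hμ3 : μ ^ 3 = 1 := by linear_combination (μ - 1) * hrel
  have hμ0 : μ ≠ 0 := by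
    intro h
    rw [h] at hμ3
    simp at hμ3
  -- the powers of `μ`
  have hpow : ∀ j : ℕ, μ ^ j = 1 ∨ μ ^ j = μ ∨ μ ^ j = μ ^ 2 := by
    intro j
    induction j with
    | zero => left; simp
    | succ j ih =>
      rcases ih with h | h | h
      · right; left; rw [pow_succ, h, one_mul]
      · right; right; rw [pow_succ, h, sq]
      · left; rw [pow_succ, h, ← pow_succ, hμ3]
  have hD0 : (0 : ZMod q) ∉ ({2, -μ ^ 2, -μ} : Finset (ZMod q)) := by
    simp only [Finset.mem_insert, Finset.mem_singleton, not_or]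
    refine ⟨fun h => hq2 h.symm, fun h => ?_, fun h => ?_⟩
    · have : μ ^ 2 = 0 := by linear_combination h
      exact hμ0 (pow_eq_zero_iff (by norm_num) |>.1 this)
    · exact hμ0 (by linear_combination h)
  have hD1 : (1 : ZMod q) ∉ ({2, -μ ^ 2, -μ} : Finset (ZMod q)) := by
    simp only [Finset.mem_insert, Finset.mem_singleton, not_or]
    refine ⟨fun h => ?_, fun h => ?_, fun h => ?_⟩
    · have : (1 : ZMod q) = 0 := by linear_combination -h
      exact one_ne_zero this
    · -- `μ² = -1`, so `μ = 0`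
      exact hμ0 (by linear_combination hrel - h)
    · -- `μ = -1`
      have : (1 : ZMod q) = 0 := by
        have h2 : μ = -1 := by linear_combination h
        rw [h2] at hrel
        linear_combination hrel
      exact one_ne_zero this
  obtain ⟨κ, hκ⟩ := cayley q {2, -μ ^ 2, -μ} Finset.card_le_three hD0 hD1
  refine ⟨q, fun n => κ (n : ZMod q), hq, fun i j hi => ?_⟩
  have hd : ((m ^ j + 1 : ℕ) : ZMod q) ∈ ({2, -μ ^ 2, -μ} : Finset (ZMod q)) := by
    push_cast
    rw [← hμ]
    simp only [Finset.mem_insert, Finset.mem_singleton]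
    rcases hpow j with h | h | h
    · left; rw [h]; ring
    · right; left; rw [h]; linear_combination hrel
    · right; right; rw [h]; linear_combination hrel
  have hnd : ¬ q ∣ m ^ j + 1 := by
    intro h
    rw [(ZMod.natCast_eq_zero_iff _ _).2 h] at hd
    exact hD0 hd
  have h1 : ordCompl[q] (i * (m ^ j + 1)) = ordCompl[q] i * (m ^ j + 1) := by
    rw [Nat.ordCompl_mul, Nat.factorization_eq_zero_of_not_dvd hnd, pow_zero, Nat.div_one]
  have hu : ((ordCompl[q] i : ℕ) : ZMod q) ≠ 0 := by
    rw [Ne, ZMod.natCast_eq_zero_iff]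
    exact Nat.not_dvd_ordCompl hq hi.ne'
  have h2 := hκ _ _ hu hd
  simp only
  rw [h1]
  push_cast at h2 ⊢
  exact h2

open Classical in
/-- the prime and the colouring of the exponents for the base `m` -/
noncomputable def qk (m : ℕ) : ℕ × (ℕ → Fin 7) :=
  if h : 1 < m then ⟨(exists_kappa m h).choose, (exists_kappa m h).choose_spec.choose⟩
  else ⟨0, fun _ => 0⟩

lemma qk_spec {m : ℕ} (hm : 1 < m) : ∀ i j : ℕ, 0 < i →
    (qk m).2 (ordCompl[(qk m).1] i) ≠ (qk m).2 (ordCompl[(qk m).1] (i * (m ^ j + 1))) := by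
  have h := (exists_kappa m hm).choose_spec.choose_spec.2
  unfold qk
  rw [dif_pos hm]
  exact h

/-- the exponent of the least prime factor -/
def e (a : ℕ) : ℕ := a.factorization a.minFac

lemma e_pos {a : ℕ} (ha : 1 < a) : 0 < e a := by
  have hp := Nat.minFac_prime (by omega : a ≠ 1)
  exact hp.factorization_pos_of_dvd (by omega) (Nat.minFac_dvd a)

lemma e_pow {a k : ℕ} (hk : k ≠ 0) : e (a ^ k) = e a * k := by
  unfold e
  rw [Nat.pow_minFac hk, Nat.factorization_pow]
  simp [mul_comm]

/-- the colouring -/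
noncomputable def col (n : ℕ) : Fin 7 :=
  (qk (root n)).2 (ordCompl[(qk (root n)).1] (e n))

/-- **No triple inside the powers of one integer.** -/
theorem col_ne {a b : ℕ} (ha : 1 < a) (hb : 1 < b) (h : ∃ m i j : ℕ, a = m ^ i ∧ b = m ^ j) :
    col a ≠ col (a ^ (b + 1)) := by
  obtain ⟨m, i, j, rfl, rfl⟩ := h
  have hi : 0 < i := by
    rcases Nat.eq_zero_or_pos i with rfl | h
    · simp at ha
    · exact h
  have hj : 0 < j := by
    rcases Nat.eq_zero_or_pos j with rfl | h
    · simp at hb
    · exact h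
  have hr : root (m ^ i) = root m := root_pow hi
  have hr' : root (m ^ j) = root m := root_pow hj
  have hr1 : 1 < root m := hr ▸ (P_root ha).1
  obtain ⟨k, hk, hbk⟩ := eq_root_pow hb
  rw [hr'] at hbk
  unfold col
  rw [root_pow (Nat.succ_pos _), hr, e_pow (Nat.succ_ne_zero _)]
  have h1 := qk_spec hr1 (e (m ^ i)) k (e_pos ha)
  rw [← hbk] at h1
  exact h1

theorem common_base7 : ∃ c : ℕ → Fin 7, ∀ a b : ℕ, 1 < a → 1 < b →
    (∃ m i j : ℕ, a = m ^ i ∧ b = m ^ j) → c a ≠ c (a ^ (b + 1)) :=
  ⟨col, fun _ _ ha hb h => col_ne ha hb h⟩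

end Pool.Agent.Helper60.CommonBase
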