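import Mathlib

/-! Uniform version of Gallai's theorem and the return-time lemmas used for the
triple `a, a^b, a^(b^b)`. -/

namespace H60

open Finset

/-- Uniform Gallai theorem: the dilation factor and the base point can be taken from
finite sets depending only on the configuration and on the number of colours. -/
theorem gallai_unif {M : Type*} [AddCommMonoid M] (W : Finset M) (κ : Type*) [Finite κ] :
    ∃ (D : ℕ) (U : Finset M), ∀ C : M → κ, ∃ d : ℕ, 0 < d ∧ d ≤ D ∧ ∃ u ∈ U, ∃ k : κ,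
      ∀ w ∈ W, C (u + d • w) = k := by
  classical
  obtain ⟨ι, _inst, hι⟩ := Combinatorics.Line.exists_mono_in_high_dimension W κ
  refine ⟨Fintype.card ι,
    Finset.univ.image (fun f : ι → Option W => ∑ i, ((f i).map Subtype.val).getD 0), ?_⟩
  intro C
  obtain ⟨l, c, hl⟩ := hι fun v => C (∑ i, (v i : M))
  set s : Finset ι := {i | l.idxFun i = none} with hs
  refine ⟨s.card, Finset.card_pos.mpr ⟨l.proper.choose, ?_⟩, Finset.card_le_univ _, _,
    Finset.mem_image_of_mem _ (Finset.mem_univ l.idxFun), c, ?_⟩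
  · rw [hs, Finset.mem_filter]
    exact ⟨Finset.mem_univ _, l.proper.choose_spec⟩
  intro x xs
  rw [← hl ⟨x, xs⟩]
  clear hl
  congr 1
  have h1 : ∀ i, ((l ⟨x, xs⟩ i : W) : M)
      = ((l.idxFun i).map Subtype.val).getD 0 + (if i ∈ s then x else 0) := by
    intro i
    by_cases hi : l.idxFun i = none
    · have : i ∈ s := by rw [hs, Finset.mem_filter]; exact ⟨Finset.mem_univ _, hi⟩
      simp [this, hi]
    · have : i ∉ s := by rw [hs, Finset.mem_filter]; exact fun h => hi h.2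
      obtain ⟨y, hy⟩ := Option.ne_none_iff_exists.mp hi
      rw [Combinatorics.Line.apply_some (a := y) hy.symm]
      simp [this, ← hy]
  rw [Finset.sum_congr rfl (fun i _ => h1 i), Finset.sum_add_distrib]
  congr 1
  rw [Finset.sum_ite_mem, Finset.univ_inter, Finset.sum_const]

/-- Version for finite sets. -/
theorem gallai_set {M : Type*} [AddCommMonoid M] {W : Set M} (hW : W.Finite)
    (κ : Type*) [Finite κ] :
    ∃ (D : ℕ) (U : Set M), U.Finite ∧ ∀ C : M → κ, ∃ d : ℕ, 0 < d ∧ d ≤ D ∧ ∃ u ∈ U, ∃ k : κ,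
      ∀ w ∈ W, C (u + d • w) = k := by
  obtain ⟨D, U, h⟩ := gallai_unif hW.toFinset κ
  refine ⟨D, U, U.finite_toSet, fun C => ?_⟩
  obtain ⟨d, h0, h1, u, hu, k, hk⟩ := h C
  exact ⟨d, h0, h1, u, hu, k, fun w hw => hk w (hW.mem_toFinset.mpr hw)⟩

/-- Lemma C: sets with bounded multiplicative gaps contain arithmetic progressions
with bounded parameters. -/
theorem lemmaC (K : Set ℕ) (hK : K.Finite) (hKpos : ∀ h ∈ K, 0 < h) (L : ℕ) :
    ∃ B : ℕ, ∀ ℬ : Set ℕ, (∀ k, 0 < k → ∃ h ∈ K, h * k ∈ ℬ) →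
      ∃ k k' : ℕ, 0 < k ∧ 0 < k' ∧ k + L * k' ≤ B ∧ ∀ i ≤ L, k + i * k' ∈ ℬ := by
  classical
  have : Finite K := hK
  obtain ⟨D, U, hU⟩ := gallai_unif (Finset.range (L + 1)) K
  obtain ⟨hmax, hhmax⟩ := hK.bddAbove
  refine ⟨hmax * (U.sup id + 1 + L * D), fun ℬ hℬ => ?_⟩
  choose! f hf hf' using hℬ
  obtain ⟨d, hd0, hdD, u, hu, ⟨h, hh⟩, hk⟩ :=
    hU (fun m => (⟨f (m + 1), hf _ (Nat.succ_pos m)⟩ : K))
  have hpos : 0 < h := hKpos h hh
  refine ⟨h * (u + 1), h * d, by positivity, by positivity, ?_, ?_⟩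
  · have h1 : h ≤ hmax := hhmax hh
    have h2 : u ≤ U.sup id := Finset.le_sup (f := id) hu
    calc h * (u + 1) + L * (h * d) = h * (u + 1 + L * d) := by ring
      _ ≤ hmax * (U.sup id + 1 + L * D) := by gcongr
  · intro i hi
    have h3 := hk i (Finset.mem_range.mpr (Nat.lt_succ_of_le hi))
    have h4 : f (u + d • i + 1) = h := congrArg Subtype.val h3
    have h5 := hf' (u + d • i + 1) (Nat.succ_pos _)
    rw [h4] at h5
    have h6 : h * (u + 1) + i * (h * d) = h * (u + d • i + 1) := by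
      simp only [smul_eq_mul]; ring
    rw [h6]
    exact h5

end H60
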