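import Mathlib

/-! Finite colourings with no monochromatic pair `a, a^(b^b)` when `b` is a prime power or has
boundedly many prime factors. -/

namespace H60

open Finset

/-- Exponent of the smallest prime factor. -/
noncomputable def EE (n : ℕ) : ℕ := n.factorization n.minFac

theorem EE_pos {a : ℕ} (ha : 1 < a) : 0 < EE a := by
  unfold EE
  have hp : a.minFac.Prime := Nat.minFac_prime (by omega)
  exact hp.factorization_pos_of_dvd (by omega) (Nat.minFac_dvd a)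

theorem EE_pow {a m : ℕ} (hm : 0 < m) : EE (a ^ m) = m * EE a := by
  unfold EE
  rw [Nat.pow_minFac hm.ne', Nat.factorization_pow]
  simp

/-- Lacunary sequences admit a multiplier keeping them away from the integers. -/
theorem exists_theta (n : ℕ → ℝ) (h0 : 0 < n 0) (hn : ∀ j, 3 * n j ≤ n (j + 1)) :
    ∃ θ : ℝ, ∀ j, ∃ k : ℤ, (k : ℝ) + 1 / 4 ≤ n j * θ ∧ n j * θ ≤ k + 3 / 4 := by
  have hpos : ∀ j, 0 < n j := by
    intro j
    induction j with
    | zero => exact h0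
    | succ j ih => nlinarith [hn j]
  -- nested intervals `[(k j + 1/4) / n j, (k j + 3/4) / n j]`
  have step : ∀ j (k : ℤ), ∃ k' : ℤ, ((k : ℝ) + 1 / 4) / n j ≤ ((k' : ℝ) + 1 / 4) / n (j + 1) ∧
      ((k' : ℝ) + 3 / 4) / n (j + 1) ≤ ((k : ℝ) + 3 / 4) / n j := by
    intro j k
    set r : ℝ := n (j + 1) / n j with hr
    have hr3 : 3 ≤ r := by
      rw [hr, le_div_iff₀ (hpos j)]
      exact hn j
    refine ⟨⌈((k : ℝ) + 1 / 4) * r - 1 / 4⌉, ?_, ?_⟩
    · rw [div_le_div_iff₀ (hpos j) (hpos (j + 1))]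
      have h1 := Int.le_ceil (((k : ℝ) + 1 / 4) * r - 1 / 4)
      have h2 : ((k : ℝ) + 1 / 4) * r ≤ (⌈((k : ℝ) + 1 / 4) * r - 1 / 4⌉ : ℝ) + 1 / 4 := by linarith
      have h3 : ((k : ℝ) + 1 / 4) * n (j + 1) = ((k : ℝ) + 1 / 4) * r * n j := by
        rw [hr, mul_assoc, div_mul_cancel₀ _ (hpos j).ne']
      rw [h3]
      exact mul_le_mul_of_nonneg_right h2 (hpos j).le
    · rw [div_le_div_iff₀ (hpos (j + 1)) (hpos j)]
      have h1 := Int.ceil_lt_add_one (((k : ℝ) + 1 / 4) * r - 1 / 4)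
      have h2 : (⌈((k : ℝ) + 1 / 4) * r - 1 / 4⌉ : ℝ) + 3 / 4 ≤ ((k : ℝ) + 3 / 4) * r := by
        nlinarith
      have h3 : ((k : ℝ) + 3 / 4) * n (j + 1) = ((k : ℝ) + 3 / 4) * r * n j := by
        rw [hr, mul_assoc, div_mul_cancel₀ _ (hpos j).ne']
      rw [h3]
      exact mul_le_mul_of_nonneg_right h2 (hpos j).le
  choose f hf1 hf2 using step
  let K : ℕ → ℤ := fun j => Nat.rec (motive := fun _ => ℤ) 0 (fun j k => f j k) j
  have hK : ∀ j, K (j + 1) = f j (K j) := fun j => rfl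
  let lo : ℕ → ℝ := fun j => ((K j : ℝ) + 1 / 4) / n j
  let hi : ℕ → ℝ := fun j => ((K j : ℝ) + 3 / 4) / n j
  have hlo : Monotone lo := monotone_nat_of_le_succ fun j => by
    show ((K j : ℝ) + 1 / 4) / n j ≤ ((K (j + 1) : ℝ) + 1 / 4) / n (j + 1)
    rw [hK]; exact hf1 j (K j)
  have hhi : Antitone hi := antitone_nat_of_succ_le fun j => by
    show ((K (j + 1) : ℝ) + 3 / 4) / n (j + 1) ≤ ((K j : ℝ) + 3 / 4) / n j
    rw [hK]; exact hf2 j (K j)
  have hlh : ∀ i j, lo i ≤ hi j := by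
    intro i j
    have h1 : lo (max i j) ≤ hi (max i j) := by
      show ((K (max i j) : ℝ) + 1 / 4) / n (max i j) ≤ ((K (max i j) : ℝ) + 3 / 4) / n (max i j)
      exact div_le_div_of_nonneg_right (by linarith) (hpos _).le
    exact (hlo (le_max_left i j)).trans (h1.trans (hhi (le_max_right i j)))
  have hbdd : BddAbove (Set.range lo) := ⟨hi 0, by rintro _ ⟨i, rfl⟩; exact hlh i 0⟩
  refine ⟨⨆ i, lo i, fun j => ⟨K j, ?_, ?_⟩⟩
  · have h1 : lo j ≤ ⨆ i, lo i := le_ciSup hbdd j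
    have h2 : ((K j : ℝ) + 1 / 4) / n j ≤ ⨆ i, lo i := h1
    rw [div_le_iff₀ (hpos j)] at h2
    linarith
  · have h1 : ⨆ i, lo i ≤ hi j := ciSup_le fun i => hlh i j
    have h2 : ⨆ i, lo i ≤ ((K j : ℝ) + 3 / 4) / n j := h1
    rw [le_div_iff₀ (hpos j)] at h2
    linarith

/-- For every prime (indeed every `p ≥ 2`) and parity `e`, a multiplier keeping
`j * p ^ j` (for `j ≡ e`) away from the integers. -/
theorem exists_theta_prime (p : ℕ) (hp : 2 ≤ p) (e : ℕ) (he : 0 < e) :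
    ∃ θ : ℝ, ∀ i : ℕ, ∃ k : ℤ,
      (k : ℝ) + 1 / 4 ≤ ((2 * i + e : ℕ) : ℝ) * (p : ℝ) ^ (2 * i + e) * θ ∧
      ((2 * i + e : ℕ) : ℝ) * (p : ℝ) ^ (2 * i + e) * θ ≤ k + 3 / 4 := by
  have hp' : (2 : ℝ) ≤ p := by exact_mod_cast hp
  apply exists_theta (fun i => ((2 * i + e : ℕ) : ℝ) * (p : ℝ) ^ (2 * i + e))
  · have : (0 : ℝ) < e := by exact_mod_cast he
    simp only [mul_zero, zero_add]
    positivity
  · intro i
    have h1 : (p : ℝ) ^ (2 * (i + 1) + e) = (p : ℝ) ^ (2 * i + e) * (p : ℝ) ^ 2 := by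
      rw [← pow_add]; congr 1; ring
    have h2 : ((2 * (i + 1) + e : ℕ) : ℝ) = ((2 * i + e : ℕ) : ℝ) + 2 := by push_cast; ring
    show 3 * (((2 * i + e : ℕ) : ℝ) * (p : ℝ) ^ (2 * i + e))
      ≤ ((2 * (i + 1) + e : ℕ) : ℝ) * (p : ℝ) ^ (2 * (i + 1) + e)
    rw [h1, h2]
    have h3 : (0 : ℝ) < (p : ℝ) ^ (2 * i + e) := by positivity
    have h4 : (0 : ℝ) ≤ ((2 * i + e : ℕ) : ℝ) := Nat.cast_nonneg _
    have h5 : (4 : ℝ) ≤ (p : ℝ) ^ 2 := by nlinarith
    have h6 : 0 ≤ ((2 * i + e : ℕ) : ℝ) * (p : ℝ) ^ (2 * i + e) := mul_nonneg h4 h3.le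
    nlinarith [mul_nonneg h3.le (by linarith : (0:ℝ) ≤ (p:ℝ) ^ 2), mul_nonneg h6 (by linarith : (0:ℝ) ≤ (p:ℝ)^2 - 4)]

/-- Quarter of the circle in which a real number lies modulo one. -/
noncomputable def qu (x : ℝ) : ℤ := ⌊4 * Int.fract x⌋

theorem qu_nonneg (x : ℝ) : 0 ≤ qu x := Int.floor_nonneg.2 (by
  have := Int.fract_nonneg x
  linarith)

theorem qu_lt (x : ℝ) : qu x < 4 := by
  have := Int.fract_lt_one x
  refine Int.floor_lt.2 ?_
  push_cast
  linarith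

/-- A shift by an amount which is between `1/4` and `3/4` modulo one changes the quarter. -/
theorem qu_shift (x s : ℝ) (k : ℤ) (h1 : (k : ℝ) + 1 / 4 ≤ s) (h2 : s ≤ k + 3 / 4) :
    qu (x + s) ≠ qu x := by
  intro h
  unfold qu at h
  have a1 := Int.floor_le (4 * Int.fract (x + s))
  have a2 := Int.lt_floor_add_one (4 * Int.fract (x + s))
  have a3 := Int.floor_le (4 * Int.fract x)
  have a4 := Int.lt_floor_add_one (4 * Int.fract x)
  rw [h] at a1 a2
  have b1 : Int.fract (x + s) = x + s - ⌊x + s⌋ := rfl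
  have b2 : Int.fract x = x - ⌊x⌋ := rfl
  have hz : ∃ z : ℤ, (z : ℝ) = s - (Int.fract (x + s) - Int.fract x) :=
    ⟨⌊x + s⌋ - ⌊x⌋, by rw [b1, b2]; push_cast; ring⟩
  obtain ⟨z, hz⟩ := hz
  have c1 : (k : ℝ) < z := by rw [hz]; linarith
  have c2 : (z : ℝ) < k + 1 := by rw [hz]; linarith
  have c3 : k < z := by exact_mod_cast c1
  have c4 : z < k + 1 := by exact_mod_cast c2
  omega

/-- Completely additive extension of a function on the primes. -/
noncomputable def ph (θ : ℕ → ℝ) (n : ℕ) : ℝ := n.factorization.sum fun p e => (e : ℝ) * θ p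

theorem ph_mul (θ : ℕ → ℝ) {m n : ℕ} (hm : m ≠ 0) (hn : n ≠ 0) :
    ph θ (m * n) = ph θ m + ph θ n := by
  unfold ph
  rw [Nat.factorization_mul hm hn]
  refine Finsupp.sum_add_index' ?_ ?_
  · intro a; simp
  · intro a b c; push_cast; ring

theorem ph_prime_pow (θ : ℕ → ℝ) {p : ℕ} (hp : p.Prime) (e : ℕ) :
    ph θ (p ^ e) = e * θ p := by
  unfold ph
  rw [hp.factorization_pow, Finsupp.sum_single_index]
  simp

/-- The colouring data separate `a` from `a ^ (b ^ b)` when `b` is a prime power. -/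
theorem exists_ph (e : ℕ) (he : 0 < e) : ∃ θ : ℕ → ℝ, ∀ p : ℕ, p.Prime → ∀ i x : ℕ, x ≠ 0 →
    qu (ph θ (((p ^ (2 * i + e)) ^ (p ^ (2 * i + e))) * x)) ≠ qu (ph θ x) := by
  have h : ∀ p : ℕ, ∃ t : ℝ, 2 ≤ p → ∀ i : ℕ, ∃ k : ℤ,
      (k : ℝ) + 1 / 4 ≤ ((2 * i + e : ℕ) : ℝ) * (p : ℝ) ^ (2 * i + e) * t ∧
      ((2 * i + e : ℕ) : ℝ) * (p : ℝ) ^ (2 * i + e) * t ≤ k + 3 / 4 := by
    intro p
    by_cases hp : 2 ≤ p
    · obtain ⟨t, ht⟩ := exists_theta_prime p hp e he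
      exact ⟨t, fun _ => ht⟩
    · exact ⟨0, fun h => absurd h hp⟩
  choose θ hθ using h
  refine ⟨θ, fun p hp i x hx => ?_⟩
  obtain ⟨k, hk1, hk2⟩ := hθ p hp.two_le i
  rw [← pow_mul, ph_mul θ (pow_ne_zero _ hp.ne_zero) hx, ph_prime_pow θ hp, add_comm]
  refine qu_shift _ _ k ?_ ?_
  · push_cast at hk1 ⊢
    linarith
  · push_cast at hk2 ⊢
    linarith

/-- Number of prime factors, with multiplicity, of the exponent. -/
theorem card_primeFactors_le (b : ℕ) : b.primeFactors.card ≤ ArithmeticFunction.cardFactors b := by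
  rw [ArithmeticFunction.cardFactors_apply]
  exact List.toFinset_card_le _

theorem main (k M : ℕ) (hM : 0 < M) : ∃ (m : ℕ) (c : ℕ → Fin m), ∀ a b : ℕ, 1 < a → 1 < b →
    c a = c (a ^ (b ^ b)) →
      M ∣ b * ArithmeticFunction.cardFactors b ∧ k < ArithmeticFunction.cardFactors b ∧
        ¬ IsPrimePow b := by
  obtain ⟨S, hS, hcard⟩ : ∃ S : Finset ℕ, (S : Set ℕ) ⊆ {p | p.Prime ∧ k < p} ∧ S.card = k + 1 := by
    have hinf : {p | p.Prime ∧ k < p}.Infinite := by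
      have h1 := Nat.infinite_setOfPred_prime.sdiff (Set.finite_le_nat k)
      refine h1.mono ?_
      rintro p ⟨hp, hk⟩
      refine ⟨hp, ?_⟩
      simpa using hk
    exact hinf.exists_subset_card_eq (k + 1)
  set L : ℕ := M * ∏ l ∈ S, l with hL
  have hLpos : 0 < L := by
    refine Nat.mul_pos hM (Finset.prod_pos fun l hl => ?_)
    exact (hS hl).1.pos
  obtain ⟨θ1, h1⟩ := exists_ph 1 one_pos
  obtain ⟨θ2, h2⟩ := exists_ph 2 two_pos
  let C : ℕ → Fin L × Fin 4 × Fin 4 := fun n =>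
    (⟨ArithmeticFunction.cardFactors (EE n) % L, Nat.mod_lt _ hLpos⟩,
      ⟨(qu (ph θ1 (EE n))).toNat, by
        have := qu_nonneg (ph θ1 (EE n)); have := qu_lt (ph θ1 (EE n)); omega⟩,
      ⟨(qu (ph θ2 (EE n))).toNat, by
        have := qu_nonneg (ph θ2 (EE n)); have := qu_lt (ph θ2 (EE n)); omega⟩)
  obtain ⟨m, ⟨φ⟩⟩ := Finite.exists_equiv_fin (Fin L × Fin 4 × Fin 4)
  refine ⟨m, fun n => φ (C n), fun a b ha hb hab => ?_⟩
  have hC : C a = C (a ^ (b ^ b)) := φ.injective hab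
  have hbb : 0 < b ^ b := pow_pos (by omega) _
  have hEa : EE a ≠ 0 := (EE_pos ha).ne'
  have hE : EE (a ^ (b ^ b)) = b ^ b * EE a := EE_pow hbb
  have e1 : ArithmeticFunction.cardFactors (EE a) % L
      = ArithmeticFunction.cardFactors (b ^ b * EE a) % L := by
    have := congrArg (fun x => (x.1 : ℕ)) hC
    simp only [C, hE] at this
    exact this
  have e2 : qu (ph θ1 (EE a)) = qu (ph θ1 (b ^ b * EE a)) := by
    have := congrArg (fun x => (x.2.1 : ℕ)) hC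
    simp only [C, hE] at this
    have := qu_nonneg (ph θ1 (EE a))
    have := qu_nonneg (ph θ1 (b ^ b * EE a))
    omega
  have e3 : qu (ph θ2 (EE a)) = qu (ph θ2 (b ^ b * EE a)) := by
    have := congrArg (fun x => (x.2.2 : ℕ)) hC
    simp only [C, hE] at this
    have := qu_nonneg (ph θ2 (EE a))
    have := qu_nonneg (ph θ2 (b ^ b * EE a))
    omega
  rw [ArithmeticFunction.cardFactors_mul hbb.ne' hEa, ArithmeticFunction.cardFactors_pow] at e1
  have hdvd : L ∣ b * ArithmeticFunction.cardFactors b := by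
    have h3 : b * ArithmeticFunction.cardFactors b + ArithmeticFunction.cardFactors (EE a)
        ≡ 0 + ArithmeticFunction.cardFactors (EE a) [MOD L] := by
      rw [zero_add]
      exact e1.symm
    exact (Nat.modEq_zero_iff_dvd).1 (Nat.ModEq.add_right_cancel' _ h3)
  refine ⟨(Dvd.intro _ rfl).trans hdvd, ?_, ?_⟩
  · by_contra hk
    rw [not_lt] at hk
    have hpos : 0 < ArithmeticFunction.cardFactors b := by
      rw [ArithmeticFunction.cardFactors_pos_iff_one_lt]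
      exact hb
    have hsub : S ⊆ b.primeFactors := by
      intro l hl
      obtain ⟨hlp, hlk⟩ := hS hl
      have h4 : l ∣ b * ArithmeticFunction.cardFactors b :=
        ((Finset.dvd_prod_of_mem _ hl).trans (Dvd.intro_left _ rfl)).trans hdvd
      rcases hlp.dvd_mul.1 h4 with h5 | h5
      · exact Nat.mem_primeFactors.2 ⟨hlp, h5, by omega⟩
      · have := Nat.le_of_dvd hpos h5
        omega
    have h6 := (Finset.card_le_card hsub).trans (card_primeFactors_le b)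
    omega
  · rintro hpp
    rw [isPrimePow_nat_iff] at hpp
    obtain ⟨p, j, hp, hj, rfl⟩ := hpp
    rcases Nat.even_or_odd' j with ⟨i, rfl | rfl⟩
    · obtain ⟨i', rfl⟩ : ∃ i', i = i' + 1 := ⟨i - 1, by omega⟩
      have h7 := h2 p hp i' (EE a) hEa
      have h8 : 2 * (i' + 1) = 2 * i' + 2 := by ring
      rw [h8] at e3
      exact h7 e3.symm
    · have h7 := h1 p hp i (EE a) hEa
      exact h7 (by rw [e2])

end H60
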