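import Pool.Agent.Helper60.Chain

/-! From a finite colouring of the positive integers to a uniformly recurrent colouring of
the enveloping group (limits of multiplicative translates, minimal subsystem). -/

namespace H60

open Set

variable {H : Type*} [AddCommGroup H]

/-- `ξ` is a limit of multiplicative translates of `c`. -/
def IsLim {κ : Type*} (θ : ℕ → H) (c : ℕ → κ) (ξ : H → κ) : Prop :=
  ∀ F : Set H, F.Finite → ∃ M : ℕ, 0 < M ∧ ∀ x ∈ F, ∃ m : ℕ, 0 < m ∧ θ M + x = θ m ∧ ξ x = c m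

/-- Every finite set can be shifted into the image of `θ`. -/
theorem shift_finite (θ : ℕ → H)
    (hθ : ∀ m n, 0 < m → 0 < n → θ (m * n) = θ m + θ n)
    (hgen : ∀ x : H, ∃ M m : ℕ, 0 < M ∧ 0 < m ∧ θ M + x = θ m)
    (F : Set H) (hF : F.Finite) :
    ∃ M : ℕ, 0 < M ∧ ∀ x ∈ F, ∃ m : ℕ, 0 < m ∧ θ M + x = θ m := by
  classical
  induction F, hF using Set.Finite.induction_on with
  | empty => exact ⟨1, one_pos, fun x hx => hx.elim⟩
  | @insert a s ha hs ih =>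
    obtain ⟨M, hM, hM'⟩ := ih
    obtain ⟨M₁, m₁, hM₁, hm₁, h₁⟩ := hgen a
    refine ⟨M * M₁, Nat.mul_pos hM hM₁, fun x hx => ?_⟩
    rcases hx with rfl | hx
    · refine ⟨M * m₁, Nat.mul_pos hM hm₁, ?_⟩
      rw [hθ _ _ hM hM₁, hθ _ _ hM hm₁, ← h₁]
      abel
    · obtain ⟨m, hm, hm'⟩ := hM' x hx
      refine ⟨M₁ * m, Nat.mul_pos hM₁ hm, ?_⟩
      rw [hθ _ _ hM hM₁, hθ _ _ hM₁ hm, ← hm']
      abel

omit [AddCommGroup H] in
theorem isClopen_dep {κ : Type*} [TopologicalSpace κ] [DiscreteTopology κ]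
    [Finite κ] (F : Set H) (hF : F.Finite)
    (P : (F → κ) → Prop) : IsClopen {ξ : H → κ | P (fun x => ξ x)} := by
  have : Finite F := hF
  have hcont : Continuous (fun ξ : H → κ => (fun x : F => ξ x)) := by fun_prop
  exact (isClopen_discrete {f : F → κ | P f}).preimage hcont

/-- Colourings looking like a translate of `c` on `F`. -/
def LimF {κ : Type*} (θ : ℕ → H) (c : ℕ → κ) (F : Set H) : Set (H → κ) :=
  {ξ | ∃ M : ℕ, 0 < M ∧ ∀ x ∈ F, ∃ m : ℕ, 0 < m ∧ θ M + x = θ m ∧ ξ x = c m}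

theorem isClosed_limF {κ : Type*} [TopologicalSpace κ] [DiscreteTopology κ]
    [Finite κ] (θ : ℕ → H) (c : ℕ → κ) (F : Set H) (hF : F.Finite) :
    IsClosed (LimF θ c F) := by
  have h := (isClopen_dep F hF (fun f : F → κ => ∃ M : ℕ, 0 < M ∧ ∀ x : F, ∃ m : ℕ,
    0 < m ∧ θ M + x = θ m ∧ f x = c m)).1
  convert h using 1
  ext ξ
  constructor
  · rintro ⟨M, hM, hM'⟩
    exact ⟨M, hM, fun x => hM' x x.2⟩
  · rintro ⟨M, hM, hM'⟩
    exact ⟨M, hM, fun x hx => hM' ⟨x, hx⟩⟩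

/-- The translation action on colourings. -/
def tau {κ : Type*} (g : H) (ξ : H → κ) : H → κ := fun x => ξ (x + g)

theorem continuous_tau {κ : Type*} [TopologicalSpace κ] (g : H) :
    Continuous (tau g : (H → κ) → (H → κ)) := by
  unfold tau
  fun_prop

theorem isLim_tau {κ : Type*} (θ : ℕ → H)
    (c : ℕ → κ) (ξ : H → κ) (h : IsLim θ c ξ) (g : H) : IsLim θ c (tau g ξ) := by
  intro F hF
  obtain ⟨M, hM, hM'⟩ := h (insert g ((fun x => x + g) '' F)) ((hF.image _).insert g)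
  obtain ⟨m, hm, hm', -⟩ := hM' g (mem_insert _ _)
  refine ⟨m, hm, fun x hx => ?_⟩
  obtain ⟨n, hn, hn', hc⟩ := hM' (x + g) (mem_insert_of_mem _ ⟨x, hx, rfl⟩)
  refine ⟨n, hn, ?_, hc⟩
  rw [← hm', ← hn']
  abel

/-- Existence of a limit of multiplicative translates. -/
theorem exists_isLim {κ : Type*} [Finite κ] [TopologicalSpace κ] [DiscreteTopology κ]
    (θ : ℕ → H)
    (hθ : ∀ m n, 0 < m → 0 < n → θ (m * n) = θ m + θ n)
    (hgen : ∀ x : H, ∃ M m : ℕ, 0 < M ∧ 0 < m ∧ θ M + x = θ m)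
    (c : ℕ → κ) : ∃ ξ : H → κ, IsLim θ c ξ := by
  classical
  have hne : (⋂ F : {F : Set H // F.Finite}, LimF θ c F.1).Nonempty := by
    have : Nonempty {F : Set H // F.Finite} := ⟨⟨∅, finite_empty⟩⟩
    apply IsCompact.nonempty_iInter_of_directed_nonempty_isCompact_isClosed
    · rintro ⟨F, hF⟩ ⟨G, hG⟩
      refine ⟨⟨F ∪ G, hF.union hG⟩, ?_, ?_⟩
      · rintro ξ ⟨M, hM, hM'⟩
        exact ⟨M, hM, fun x hx => hM' x (Or.inl hx)⟩
      · rintro ξ ⟨M, hM, hM'⟩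
        exact ⟨M, hM, fun x hx => hM' x (Or.inr hx)⟩
    · rintro ⟨F, hF⟩
      obtain ⟨M, hM, hM'⟩ := shift_finite θ hθ hgen F hF
      choose! m hm hm' using hM'
      exact ⟨fun x => c (m x), M, hM, fun x hx => ⟨m x, hm x hx, hm' x hx, rfl⟩⟩
    · rintro ⟨F, hF⟩
      exact (isClosed_limF θ c F hF).isCompact
    · rintro ⟨F, hF⟩
      exact isClosed_limF θ c F hF
  obtain ⟨ξ, hξ⟩ := hne
  exact ⟨ξ, fun F hF => mem_iInter.mp hξ ⟨F, hF⟩⟩

theorem isClosed_isLim {κ : Type*} [Finite κ] [TopologicalSpace κ] [DiscreteTopology κ]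
    (θ : ℕ → H) (c : ℕ → κ) : IsClosed {ξ : H → κ | IsLim θ c ξ} := by
  have : {ξ : H → κ | IsLim θ c ξ} = ⋂ F : {F : Set H // F.Finite}, LimF θ c F.1 := by
    ext ξ
    simp only [mem_ofPred_eq, mem_iInter]
    exact ⟨fun h F => h F.1 F.2, fun h F hF => h ⟨F, hF⟩⟩
  rw [this]
  exact isClosed_iInter fun F => isClosed_limF θ c F.1 F.2

/-- Existence of a uniformly recurrent limit colouring. -/
theorem exists_UR_isLim {κ : Type*} [Finite κ] (θ : ℕ → H)
    (hθ : ∀ m n, 0 < m → 0 < n → θ (m * n) = θ m + θ n)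
    (hgen : ∀ x : H, ∃ M m : ℕ, 0 < M ∧ 0 < m ∧ θ M + x = θ m)
    (c : ℕ → κ) : ∃ χ : H → κ, IsLim θ c χ ∧ UR θ χ := by
  classical
  let _ : TopologicalSpace κ := ⊥
  have _ : DiscreteTopology κ := ⟨rfl⟩
  set 𝒮 : Set (Set (H → κ)) := {E | IsClosed E ∧ E.Nonempty ∧ (∀ g, ∀ ξ ∈ E, tau g ξ ∈ E) ∧
    E ⊆ {ξ | IsLim θ c ξ}} with h𝒮
  have hL : {ξ : H → κ | IsLim θ c ξ} ∈ 𝒮 :=
    ⟨isClosed_isLim θ c, exists_isLim θ hθ hgen c, fun g ξ hξ => isLim_tau θ c ξ hξ g,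
      subset_rfl⟩
  obtain ⟨E, hE⟩ := zorn_superset 𝒮 (by
    intro C hC hchain
    rcases C.eq_empty_or_nonempty with rfl | hCne
    · exact ⟨_, hL, fun s hs => hs.elim⟩
    · have : Nonempty C := hCne.to_subtype
      refine ⟨⋂₀ C, ⟨isClosed_sInter fun t ht => (hC ht).1, ?_, ?_, ?_⟩, fun s hs =>
        sInter_subset_of_mem hs⟩
      · apply IsCompact.nonempty_sInter_of_directed_nonempty_isCompact_isClosed
        · intro s hs t ht
          rcases hchain.total hs ht with h | h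
          · exact ⟨s, hs, subset_rfl, h⟩
          · exact ⟨t, ht, h, subset_rfl⟩
        · exact fun U hU => (hC hU).2.1
        · exact fun U hU => (hC hU).1.isCompact
        · exact fun U hU => (hC hU).1
      · intro g ξ hξ t ht
        exact (hC ht).2.2.1 g ξ (hξ t ht)
      · obtain ⟨t, ht⟩ := hCne
        exact (sInter_subset_of_mem ht).trans (hC ht).2.2.2)
  have hEcl : IsClosed E := hE.prop.1
  have hEinv : ∀ g, ∀ ξ ∈ E, tau g ξ ∈ E := hE.prop.2.2.1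
  -- every orbit is dense
  have horb : ∀ ξ ∈ E, E ⊆ closure (range fun g => tau g ξ) := by
    intro ξ hξ
    have hsub : closure (range fun g => tau g ξ) ⊆ E :=
      closure_minimal (by rintro _ ⟨g, rfl⟩; exact hEinv g ξ hξ) hEcl
    refine hE.le_of_le ⟨isClosed_closure, ⟨ξ, subset_closure ⟨0, ?_⟩⟩, ?_,
      hsub.trans hE.prop.2.2.2⟩ hsub
    · funext x; simp [tau]
    · intro g η hη
      have : tau g '' closure (range fun g => tau g ξ) ⊆ closure (range fun g => tau g ξ) := by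
        refine (image_closure_subset_closure_image (continuous_tau g)).trans ?_
        apply closure_mono
        rintro _ ⟨_, ⟨g', rfl⟩, rfl⟩
        refine ⟨g + g', ?_⟩
        funext x
        simp [tau, add_assoc]
      exact this ⟨η, hη, rfl⟩
  obtain ⟨χ, hχ⟩ := hE.prop.2.1
  refine ⟨χ, hE.prop.2.2.2 hχ, ?_⟩
  intro F hF
  have : Finite F := hF
  -- for each pattern a finite set of return times
  have hp : ∀ p : F → κ, ∃ Φ : Finset H, (∃ x, ∀ v : F, χ (x + v) = p v) →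
      ∀ ξ ∈ E, ∃ h ∈ Φ, ∀ v : F, ξ (v + h) = p v := by
    intro p
    by_cases hx : ∃ x, ∀ v : F, χ (x + v) = p v
    swap
    · exact ⟨∅, fun h => absurd h hx⟩
    obtain ⟨x, hx⟩ := hx
    have hopen : ∀ h : H, IsOpen {ξ : H → κ | ∀ v : F, ξ (v + h) = p v} := by
      intro h
      have h1 := (isClopen_dep F hF (fun f : F → κ => ∀ v : F, f v = p v)).2
      exact h1.preimage (continuous_tau h)
    obtain ⟨Φ, hΦ⟩ := hEcl.isCompact.elim_finite_subcover
      (fun h : H => {ξ : H → κ | ∀ v : F, ξ (v + h) = p v}) hopen (by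
        intro ξ hξ
        have h2 := horb ξ hξ (hEinv x χ hχ)
        have h3 := (isClopen_dep F hF (fun f : F → κ => ∀ v : F, f v = p v)).2
        obtain ⟨η, hη, ⟨g, rfl⟩⟩ := mem_closure_iff.mp h2 _ h3 (by
          intro v
          show χ (v + x) = p v
          rw [add_comm]
          exact hx v)
        exact mem_iUnion.mpr ⟨g, hη⟩)
    refine ⟨Φ, fun _ ξ hξ => ?_⟩
    obtain ⟨h, hh⟩ := mem_iUnion.mp (hΦ hξ)
    obtain ⟨hh1, hh2⟩ := mem_iUnion.mp hh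
    exact ⟨h, hh1, hh2⟩
  choose Φ hΦ using hp
  have hΦf : (⋃ p : F → κ, (Φ p : Set H)).Finite := finite_iUnion fun p => (Φ p).finite_toSet
  obtain ⟨M, hM, hM'⟩ := shift_finite θ hθ hgen _ hΦf
  choose! m hm hm' using hM'
  refine ⟨m '' (⋃ p : F → κ, (Φ p : Set H)), hΦf.image _, ?_, ?_⟩
  · rintro _ ⟨h, hh, rfl⟩
    exact hm h hh
  · intro x y
    obtain ⟨h, hh, hh'⟩ := hΦ (fun v => χ (x + v)) ⟨x, fun v => rfl⟩ (tau (y + θ M) χ)
      (hEinv _ χ hχ)
    have hmem : h ∈ ⋃ p : F → κ, (Φ p : Set H) := mem_iUnion.mpr ⟨_, hh⟩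
    refine ⟨m h, ⟨h, hmem, rfl⟩, fun v hv => ?_⟩
    have := hh' ⟨v, hv⟩
    simp only [tau] at this
    rw [← this, ← hm' h hmem]
    congr 1
    abel

end H60
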