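import Pool.Agent.Helper60.Recur

/-! The monochromatic triple `x, x * b, x * b ^ b` and its exponential version. -/

namespace H60

open Set

/-- The group of positive rationals, written additively. -/
abbrev Hq : Type := Additive {q : ℚ // 0 < q}

/-- The embedding of the positive integers. -/
noncomputable def thq (n : ℕ) : Hq :=
  if h : 0 < n then Additive.ofMul ⟨(n : ℚ), by exact_mod_cast h⟩ else 0

theorem thq_mul (m n : ℕ) (hm : 0 < m) (hn : 0 < n) : thq (m * n) = thq m + thq n := by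
  unfold thq
  rw [dif_pos hm, dif_pos hn, dif_pos (Nat.mul_pos hm hn), ← ofMul_mul]
  congr 1
  apply Subtype.ext
  simp

theorem thq_inj {m n : ℕ} (hm : 0 < m) (hn : 0 < n) (h : thq m = thq n) : m = n := by
  unfold thq at h
  rw [dif_pos hm, dif_pos hn] at h
  have h1 : (m : ℚ) = (n : ℚ) := congrArg Subtype.val (Additive.ofMul.injective h)
  exact_mod_cast h1

theorem thq_pow (b : ℕ) (hb : 0 < b) (n : ℕ) : thq (b ^ n) = n • thq b := by
  induction n with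
  | zero =>
    have h := thq_mul 1 1 one_pos one_pos
    rw [mul_one] at h
    have : thq 1 = 0 := by
      have := congrArg (fun t => t - thq 1) h
      simpa using this.symm
    simp [this]
  | succ n ih =>
    rw [pow_succ, thq_mul _ _ (Nat.pow_pos hb) hb, ih, succ_nsmul]

theorem thq_gen (x : Hq) : ∃ M m : ℕ, 0 < M ∧ 0 < m ∧ thq M + x = thq m := by
  obtain ⟨q, hq⟩ : ∃ q : {q : ℚ // 0 < q}, x = Additive.ofMul q := ⟨x.toMul, rfl⟩
  have hnum : 0 < q.1.num.toNat := by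
    have := Rat.num_pos.mpr q.2
    omega
  refine ⟨q.1.den, q.1.num.toNat, q.1.den_pos, hnum, ?_⟩
  rw [hq]
  unfold thq
  rw [dif_pos q.1.den_pos, dif_pos hnum, ← ofMul_mul]
  congr 1
  apply Subtype.ext
  show (q.1.den : ℚ) * q.1 = ((q.1.num.toNat : ℕ) : ℚ)
  have h1 : ((q.1.num.toNat : ℕ) : ℤ) = q.1.num := Int.toNat_of_nonneg (Rat.num_nonneg.mpr q.2.le)
  have h2 : ((q.1.num.toNat : ℕ) : ℚ) = (q.1.num : ℚ) := by
    exact_mod_cast congrArg (fun t : ℤ => (t : ℚ)) h1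
  rw [h2]
  exact Rat.den_mul_eq_num _

/-- For every finite colouring of the positive integers there is a `T` such that for every
`N ≥ 2` one of the numbers `b = N, 2 * N, …, T * N` has, for some `x ≥ 1`, the three numbers
`x`, `x * b` and `x * b ^ b` of one colour. -/
theorem triple_mul_synd {κ : Type*} [Finite κ] (c : ℕ → κ) :
    ∃ T : ℕ, ∀ N : ℕ, 2 ≤ N → ∃ x t : ℕ, 0 < x ∧ 0 < t ∧ t ≤ T ∧
      c (x * (N * t)) = c x ∧ c (x * (N * t) ^ (N * t)) = c x := by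
  obtain ⟨χ, hlim, hUR⟩ := exists_UR_isLim thq thq_mul thq_gen c
  obtain ⟨T, hT⟩ := triple_of_UR thq thq_mul χ hUR
  refine ⟨T, fun N hN => ?_⟩
  obtain ⟨z, t, ht, htT, h1, h2⟩ := hT N hN
  set b : ℕ := N * t with hb
  have hb0 : 0 < b := Nat.mul_pos (by omega) ht
  obtain ⟨M, hM, hM'⟩ := hlim {z, z + thq b, z + gg thq b} (by simp)
  obtain ⟨x, hx, hx1, hx2⟩ := hM' z (by simp)
  obtain ⟨y, hy, hy1, hy2⟩ := hM' (z + thq b) (by simp)
  obtain ⟨w, hw, hw1, hw2⟩ := hM' (z + gg thq b) (by simp)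
  have e1 : y = x * b := by
    apply thq_inj hy (Nat.mul_pos hx hb0)
    rw [← hy1, thq_mul x b hx hb0, ← hx1]
    abel
  have e2 : w = x * b ^ b := by
    apply thq_inj hw (Nat.mul_pos hx (Nat.pow_pos hb0))
    rw [← hw1, thq_mul x _ hx (Nat.pow_pos hb0), ← hx1, thq_pow b hb0]
    unfold gg
    abel
  refine ⟨x, t, hx, ht, htT, ?_, ?_⟩
  · rw [← e1, ← hy2, ← hx2, h1]
  · rw [← e2, ← hw2, ← hx2, h2]

/-- Version with `b` in a prescribed multiplicatively thick set. -/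
theorem triple_mul {κ : Type*} [Finite κ] (c : ℕ → κ) (B : Set ℕ)
    (hB : ∀ n : ℕ, ∃ m : ℕ, 0 < m ∧ ∀ j, 0 < j → j ≤ n → m * j ∈ B) :
    ∃ x b : ℕ, 0 < x ∧ 2 ≤ b ∧ b ∈ B ∧ c (x * b) = c x ∧ c (x * b ^ b) = c x := by
  obtain ⟨T, hT⟩ := triple_mul_synd c
  obtain ⟨m, hm, hmB⟩ := hB (2 * T)
  obtain ⟨x, t, hx, ht, htT, h1, h2⟩ := hT (2 * m) (by omega)
  have e : 2 * m * t = m * (2 * t) := by ring
  refine ⟨x, 2 * m * t, hx, ?_, ?_, h1, h2⟩
  · calc 2 = 2 * 1 * 1 := rfl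
      _ ≤ 2 * m * t := Nat.mul_le_mul (Nat.mul_le_mul le_rfl hm) ht
  · rw [e]
    exact hmB (2 * t) (by omega) (by omega)

/-- Exponential version. -/
theorem triple_exp {κ : Type*} [Finite κ] (c : ℕ → κ) (r : ℕ) (hr : 1 < r) (B : Set ℕ)
    (hB : ∀ n : ℕ, ∃ m : ℕ, 0 < m ∧ ∀ j, 0 < j → j ≤ n → m * j ∈ B) :
    ∃ a b : ℕ, 1 < a ∧ 1 < b ∧ (∃ m, 0 < m ∧ a = r ^ m) ∧ b ∈ B ∧
      c (a ^ b) = c a ∧ c (a ^ (b ^ b)) = c a := by
  obtain ⟨x, b, hx, hb, hbB, h1, h2⟩ := triple_mul (fun n => c (r ^ n)) B hB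
  refine ⟨r ^ x, b, Nat.one_lt_pow hx.ne' hr, hb, ⟨x, hx, rfl⟩, hbB, ?_, ?_⟩
  · rw [← pow_mul]; exact h1
  · rw [← pow_mul]; exact h2

end H60
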