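import Pool.Agent.Helper60.Triple

/-! The full pattern for colourings with two colours. -/

namespace H60

/-- `A` is a set of multipliers with the recurrence property of the triple
`x, x * b, x * b ^ b`. -/
def Good (A : Set ℕ) : Prop :=
  ∀ (n : ℕ) (χ : ℕ → Fin n), ∃ x b : ℕ, 0 < x ∧ 2 ≤ b ∧ b ∈ A ∧ χ (x * b) = χ x ∧
    χ (x * b ^ b) = χ x

theorem Good.finite {A : Set ℕ} (h : Good A) {κ : Type*} [Finite κ] (χ : ℕ → κ) :
    ∃ x b : ℕ, 0 < x ∧ 2 ≤ b ∧ b ∈ A ∧ χ (x * b) = χ x ∧ χ (x * b ^ b) = χ x := by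
  obtain ⟨n, ⟨e⟩⟩ := Finite.exists_equiv_fin κ
  obtain ⟨x, b, hx, hb, hA, h1, h2⟩ := h n (fun t => e (χ t))
  exact ⟨x, b, hx, hb, hA, e.injective h1, e.injective h2⟩

theorem good_univ : Good (Set.univ : Set ℕ) := by
  intro n χ
  obtain ⟨x, b, hx, hb, -, h1, h2⟩ := triple_mul χ Set.univ (fun _ => ⟨1, one_pos, by simp⟩)
  exact ⟨x, b, hx, hb, trivial, h1, h2⟩

/-- Partition regularity of goodness. -/
theorem good_union {A B : Set ℕ} (h : Good (A ∪ B)) : Good A ∨ Good B := by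
  by_contra hcon
  rw [not_or] at hcon
  obtain ⟨hA, hB⟩ := hcon
  unfold Good at hA hB
  push Not at hA hB
  obtain ⟨n, χ, hχ⟩ := hA
  obtain ⟨m, ψ, hψ⟩ := hB
  obtain ⟨x, b, hx, hb, hAB, h1, h2⟩ := h.finite (fun t => (χ t, ψ t))
  have h11 := (Prod.ext_iff.mp h1).1
  have h12 := (Prod.ext_iff.mp h1).2
  have h21 := (Prod.ext_iff.mp h2).1
  have h22 := (Prod.ext_iff.mp h2).2
  rcases hAB with hA | hB
  · exact hχ x b hx hb hA h11 h21
  · exact hψ x b hx hb hB h12 h22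

/-- Either the colour class `A` (with `A` good) contains the full pattern, or the complement of
`A` is thick on the exponents of `r`. -/
theorem pattern_or_thick {A : Set ℕ} (hA : Good A) (r : ℕ) (hr : 1 < r) :
    (∃ a b : ℕ, 1 < a ∧ 1 < b ∧ a ∈ A ∧ b ∈ A ∧ a ^ b ∈ A ∧ a ^ (b ^ b) ∈ A) ∨
    (∀ F : Finset ℕ, (∀ f ∈ F, 0 < f) → ∃ t : ℕ, 0 < t ∧ ∀ f ∈ F, r ^ (t * f) ∉ A) := by
  classical
  by_contra hcon
  rw [not_or] at hcon
  obtain ⟨hno, hF⟩ := hcon
  push Not at hF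
  obtain ⟨F, hFpos, hF⟩ := hF
  choose! f hfF hfA using hF
  have h1F : 0 < (1 : ℕ) := one_pos
  obtain ⟨x, b, hx, hb, hbA, h1, h2⟩ := hA.finite (κ := Option F) (fun t =>
    if h : f t ∈ F then some ⟨f t, h⟩ else none)
  have hb0 : 0 < b := by omega
  have hxb : 0 < x * b := Nat.mul_pos hx hb0
  have hxbb : 0 < x * b ^ b := Nat.mul_pos hx (Nat.pow_pos hb0)
  rw [dif_pos (hfF x hx), dif_pos (hfF _ hxb), Option.some_inj, Subtype.mk.injEq] at h1
  rw [dif_pos (hfF x hx), dif_pos (hfF _ hxbb), Option.some_inj, Subtype.mk.injEq] at h2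
  apply hno
  have hfpos : 0 < f x := hFpos _ (hfF x hx)
  refine ⟨r ^ (x * f x), b, Nat.one_lt_pow (Nat.mul_pos hx hfpos).ne' hr, hb, hfA x hx, hbA,
    ?_, ?_⟩
  · have h3 := hfA _ hxb
    rw [h1] at h3
    rw [← pow_mul]
    rwa [mul_right_comm] at h3
  · have h3 := hfA _ hxbb
    rw [h2] at h3
    rw [← pow_mul]
    rwa [mul_right_comm] at h3

/-- A set whose complement is not met on the exponents (a thick set) contains the pattern. -/
theorem pattern_of_thick {A : Set ℕ} (r : ℕ) (hr : 1 < r)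
    (h : ∀ F : Finset ℕ, (∀ f ∈ F, 0 < f) → ∃ t : ℕ, 0 < t ∧ ∀ f ∈ F, r ^ (t * f) ∈ A) :
    ∃ a b : ℕ, 1 < a ∧ 1 < b ∧ a ∈ A ∧ b ∈ A ∧ a ^ b ∈ A ∧ a ^ (b ^ b) ∈ A := by
  obtain ⟨t, ht, ht'⟩ := h {1} (by simp)
  have hb : r ^ t ∈ A := by simpa using ht' 1 (by simp)
  have hb1 : 1 < r ^ t := Nat.one_lt_pow ht.ne' hr
  set b := r ^ t with hbdef
  obtain ⟨s, hs, hs'⟩ := h {1, b, b ^ b} (by
    intro f hf
    simp only [Finset.mem_insert, Finset.mem_singleton] at hf
    rcases hf with rfl | rfl | rfl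
    · exact one_pos
    · omega
    · exact Nat.pow_pos (by omega))
  refine ⟨r ^ s, b, Nat.one_lt_pow hs.ne' hr, hb1, ?_, hb, ?_, ?_⟩
  · simpa using hs' 1 (by simp)
  · rw [← pow_mul]; exact hs' b (by simp)
  · rw [← pow_mul]; exact hs' (b ^ b) (by simp)

/-- The full pattern for two colours. -/
theorem two_colours (c : ℕ → Fin 2) :
    ∃ a b : ℕ, 1 < a ∧ 1 < b ∧ c b = c a ∧ c (a ^ b) = c a ∧ c (a ^ (b ^ b)) = c a := by
  have huniv : Good ({n | c n = 0} ∪ {n | c n = 1}) := by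
    have : ({n | c n = 0} ∪ {n | c n = 1}) = (Set.univ : Set ℕ) := by
      ext n
      simp only [Set.mem_union, Set.mem_univ, iff_true]
      show c n = 0 ∨ c n = 1
      have h2 := (c n).2
      rcases Nat.lt_or_ge (c n).1 1 with h | h
      · left; apply Fin.ext; show (c n).1 = 0; omega
      · right; apply Fin.ext; show (c n).1 = 1; omega
    rw [this]
    exact good_univ
  have key : ∀ i j : Fin 2, i ≠ j → Good {n | c n = i} →
      ∃ a b : ℕ, 1 < a ∧ 1 < b ∧ c b = c a ∧ c (a ^ b) = c a ∧ c (a ^ (b ^ b)) = c a := by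
    intro i j hij hi
    have hor : ∀ n, ¬ (c n = i) → c n = j := by
      intro n hn
      have h2 := (c n).2
      have h3 := i.2
      have h4 := j.2
      have h5 : (c n).1 ≠ i.1 := fun h => hn (Fin.ext h)
      have h6 : i.1 ≠ j.1 := fun h => hij (Fin.ext h)
      apply Fin.ext
      omega
    rcases pattern_or_thick hi 2 (by norm_num) with h | h
    · obtain ⟨a, b, ha, hb, h1, h2, h3, h4⟩ := h
      have h1' : c a = i := h1
      have h2' : c b = i := h2
      have h3' : c (a ^ b) = i := h3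
      have h4' : c (a ^ (b ^ b)) = i := h4
      exact ⟨a, b, ha, hb, by rw [h1', h2'], by rw [h1', h3'], by rw [h1', h4']⟩
    · obtain ⟨a, b, ha, hb, h1, h2, h3, h4⟩ := pattern_of_thick (A := {n | c n = j}) 2
        (by norm_num) (fun F hF => by
          obtain ⟨t, ht, ht'⟩ := h F hF
          exact ⟨t, ht, fun f hf => hor _ (ht' f hf)⟩)
      have h1' : c a = j := h1
      have h2' : c b = j := h2
      have h3' : c (a ^ b) = j := h3
      have h4' : c (a ^ (b ^ b)) = j := h4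
      exact ⟨a, b, ha, hb, by rw [h1', h2'], by rw [h1', h3'], by rw [h1', h4']⟩
  rcases good_union huniv with h | h
  · exact key 0 1 (by decide) h
  · exact key 1 0 (by decide) h

end H60
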